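import Pool.Agent.H32.BFL.NonC
import Pool.Agent.H39.BFL.Prob

/-!
# Row NON: the new closed label when the slope is not an integer
-/

set_option autoImplicit false

namespace Pool.Agent.H32.BFL

open Finset Real
open Pool.Agent.H49.Ent Pool.Agent.H32.Dense Pool.STK Pool.KS3
open Pool.BFL

/-- The axioms of a system are weaker for a bigger error. -/
lemma ok_mono {n : ℕ} {D : Dat n} {K J r w₀ z M : ℕ} {κ κ' : ℝ} {q : D.Ω → ℝ}
    (h : D.Ok K J r w₀ z M κ q) (hκ : κ ≤ κ') : D.Ok K J r w₀ z M κ' q := by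
  have hz : (0 : ℝ) ≤ z := Nat.cast_nonneg z
  have h1 : κ * z ≤ κ' * z := mul_le_mul_of_nonneg_right hκ hz
  have h2 : Real.exp (κ * z) ≤ Real.exp (κ' * z) := Real.exp_le_exp.2 h1
  obtain ⟨e, he0, he1, he2⟩ := h.nc
  exact {
    isLaw := h.isLaw
    r_le := h.r_le
    top := h.top
    T_lt := h.T_lt
    E_le := h.E_le
    A_i₀ := h.A_i₀
    E_i₀ := h.E_i₀
    time := by linarith only [h1, h, h.time]
    pt_T := h.pt_T
    pt_Y := h.pt_Y
    c_pt := h.c_pt
    c_wn := h.c_wn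
    c_c := h.c_c
    c_T := h.c_T
    y₀_near := fun k hk ω hω i => (h.y₀_near k hk ω hω i).trans
      (div_le_div_of_nonneg_right h2 (by positivity))
    F_deg := h.F_deg
    F_hgt := fun k hk ω hω => (h.F_hgt k hk ω hω).trans
      (div_le_div_of_nonneg_right h2 (by positivity))
    F_grad := fun k hk ω hω b hb i => (h.F_grad k hk ω hω b hb i).trans h2
    g_mono := h.g_mono
    g_ge := fun k hk => (h.g_ge k hk).trans (by linarith only [h1])
    nc := by
      refine ⟨e, he0, he1.trans hκ, fun ω hω u hu => le_trans ?_ (he2 ω hω u hu)⟩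
      refine Pool.Agent.H39.BFL.Pb_mono h.isLaw.nonneg fun ω' _ h' => ⟨h'.1, h'.2.trans ?_⟩
      exact Real.exp_le_exp.2 (by linarith only [h1]) }

open Classical in
/-- Events of pairs which force an event of one of the two samples. -/
lemma P2_le {Ω G : Type} [Fintype Ω] {p : Ω → ℝ} (hp : ∀ ω, 0 ≤ p ω) (g : Ω → G)
    (A : Ω → Ω → Prop) (B : Ω → Prop)
    (h : ∀ ω ω', 0 < p ω → 0 < p ω' → g ω = g ω' → A ω ω' → B ω ∨ B ω') :
    P2 p g A ≤ Pb p B + Pb p B := by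
  have hl : ∀ ω, 0 ≤ law p g (g ω) := fun ω => law_nonneg hp g _
  have h1 : ∀ ω ω', (if g ω = g ω' ∧ A ω ω' then p ω * p ω' / law p g (g ω) else 0) ≤
      (if B ω then (if g ω' = g ω then p ω * p ω' / law p g (g ω) else 0) else 0) +
      (if B ω' then (if g ω = g ω' then p ω' * p ω / law p g (g ω') else 0) else 0) := by
    intro ω ω'
    have hn : 0 ≤ p ω * p ω' / law p g (g ω) := div_nonneg (mul_nonneg (hp _) (hp _)) (hl _)
    have hn' : 0 ≤ p ω' * p ω / law p g (g ω') := div_nonneg (mul_nonneg (hp _) (hp _)) (hl _)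
    by_cases hc : g ω = g ω' ∧ A ω ω'
    · rw [if_pos hc, if_pos hc.1, if_pos hc.1.symm]
      rcases (hp ω).eq_or_lt with h0 | h0
      · rw [← h0, zero_mul, zero_div, mul_zero, zero_div]
        split_ifs <;> simp
      rcases (hp ω').eq_or_lt with h0' | h0'
      · rw [← h0', zero_mul, zero_div, mul_zero, zero_div]
        split_ifs <;> simp
      rcases h ω ω' h0 h0' hc.1 hc.2 with hB | hB
      · rw [if_pos hB]
        have : 0 ≤ (if B ω' then p ω' * p ω / law p g (g ω') else 0) := by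
          split_ifs
          exacts [hn', le_rfl]
        linarith only [this]
      · rw [if_pos hB]
        have h2 : 0 ≤ (if B ω then p ω * p ω' / law p g (g ω) else 0) := by
          split_ifs
          exacts [hn, le_rfl]
        have e : p ω' * p ω / law p g (g ω') = p ω * p ω' / law p g (g ω) := by
          rw [hc.1, mul_comm]
        linarith only [h2, e]
    · rw [if_neg hc]
      have h2 : 0 ≤ (if B ω then (if g ω' = g ω then p ω * p ω' / law p g (g ω) else 0) else 0) := by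
        split_ifs
        exacts [hn, le_rfl, le_rfl]
      have h3 : 0 ≤ (if B ω' then (if g ω = g ω' then p ω' * p ω / law p g (g ω') else 0)
          else 0) := by
        split_ifs
        exacts [hn', le_rfl, le_rfl]
      linarith only [h2, h3]
  have h2 : ∀ ω, ∑ ω', (if B ω then (if g ω' = g ω then p ω * p ω' / law p g (g ω) else 0) else 0)
      ≤ if B ω then p ω else 0 := by
    intro ω
    by_cases hB : B ω
    · simp only [if_pos hB]
      have e1 : ∀ ω', (if g ω' = g ω then p ω * p ω' / law p g (g ω) else 0) =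
          p ω / law p g (g ω) * (if g ω' = g ω then p ω' else 0) := by
        intro ω'
        split_ifs
        · ring
        · ring
      rw [Finset.sum_congr rfl fun ω' _ => e1 ω', ← Finset.mul_sum]
      have e2 : ∑ ω', (if g ω' = g ω then p ω' else 0) = law p g (g ω) := rfl
      rw [e2]
      rcases (hl ω).eq_or_lt with h0 | h0
      · rw [← h0, mul_zero]
        exact hp ω
      · rw [div_mul_cancel₀ _ h0.ne']
    · simp only [if_neg hB, Finset.sum_const_zero, le_refl]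
  obtain ⟨X, hX⟩ : ∃ X : Ω → Ω → ℝ, X = fun ω ω' =>
      if B ω then (if g ω' = g ω then p ω * p ω' / law p g (g ω) else 0) else 0 := ⟨_, rfl⟩
  have h1' : ∀ ω ω', (if g ω = g ω' ∧ A ω ω' then p ω * p ω' / law p g (g ω) else 0) ≤
      X ω ω' + X ω' ω := by
    intro ω ω'
    rw [hX]
    exact h1 ω ω'
  have h2' : ∀ ω, ∑ ω', X ω ω' ≤ if B ω then p ω else 0 := by
    intro ω
    rw [hX]
    exact h2 ω
  have e1 : ∑ ω, ∑ ω', X ω' ω = ∑ ω, ∑ ω', X ω ω' := Finset.sum_comm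
  unfold P2 Pb
  calc ∑ ω, ∑ ω', (if g ω = g ω' ∧ A ω ω' then p ω * p ω' / law p g (g ω) else 0) ≤
      ∑ ω, ∑ ω', (X ω ω' + X ω' ω) :=
        Finset.sum_le_sum fun ω _ => Finset.sum_le_sum fun ω' _ => h1' ω ω'
    _ = ∑ ω, ∑ ω', X ω ω' + ∑ ω, ∑ ω', X ω' ω := by
        rw [← Finset.sum_add_distrib]
        exact Finset.sum_congr rfl fun ω _ => Finset.sum_add_distrib
    _ = ∑ ω, ∑ ω', X ω ω' + ∑ ω, ∑ ω', X ω ω' := by rw [e1]
    _ ≤ _ := add_le_add (Finset.sum_le_sum fun ω _ => h2' ω) (Finset.sum_le_sum fun ω _ => h2' ω)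

/-- Numbers: the Taylor polynomial of high order. -/
lemma num1 {n : ℕ} (D : Dat n) (K z B k v j A : ℕ) (s C₁ C₂ σ C : ℝ) (hC₁ : 1 ≤ C₁)
    (hC : 64 * C ≤ Real.exp z) (hvB : v ≤ B) (hH : D.Hom z B k s C₁)
    (hs : j + σ ≤ s) (hσ : C₂ + 2 * C₁ + A + K + 4 ≤ σ * ((B - v) * Real.log 2)) :
    64 * C * (SS D K z B k s C₁ C₂ * Real.exp (j * ((B - v) * (z * Real.log 2)))) ≤
      1 / 2 ^ (D.g (k + v) + A * z) := by
  have hl := l2
  have hl' := l2'
  have hz : (0 : ℝ) ≤ z := Nat.cast_nonneg z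
  have hvB' : (v : ℝ) ≤ B := by exact_mod_cast hvB
  have h0 : 64 * C * (SS D K z B k s C₁ C₂ * Real.exp (j * ((B - v) * (z * Real.log 2)))) ≤
      Real.exp z * (SS D K z B k s C₁ C₂ * Real.exp (j * ((B - v) * (z * Real.log 2)))) :=
    mul_le_mul_of_nonneg_right hC (by unfold SS; positivity)
  refine h0.trans ?_
  unfold SS
  rw [tp, one_div, ← Real.exp_neg, ← Real.exp_add, ← Real.exp_add, Real.exp_le_exp]
  have h1 := (abs_le.1 (hH v hvB)).2
  have h2 : D.g (k + v) * Real.log 2 ≤ (D.g k + s * (v * z) + C₁ * z) * Real.log 2 :=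
    mul_le_mul_of_nonneg_right (by linarith only [h1]) hl.le
  have h3 : σ * ((B - v) * (z * Real.log 2)) ≤ (s - j) * ((B - v) * (z * Real.log 2)) :=
    mul_le_mul_of_nonneg_right (by linarith only [hs]) (mul_nonneg (by linarith only [hvB']) (by positivity))
  have h4 : (C₂ + 2 * C₁ + A + K + 4) * z ≤ σ * ((B - v) * (z * Real.log 2)) := by
    calc (C₂ + 2 * C₁ + A + K + 4) * z ≤ σ * ((B - v) * Real.log 2) * z :=
          mul_le_mul_of_nonneg_right hσ hz
      _ = _ := by ring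
  have h5 : C₁ * z * Real.log 2 ≤ C₁ * z := mul_le_of_le_one_right (by positivity) hl'
  have h6 : A * z * Real.log 2 ≤ A * z := mul_le_of_le_one_right (by positivity) hl'
  push_cast
  nlinarith only [h2, h3, h4, h5, h6]

/-- Numbers: the transport. -/
lemma num2 {n : ℕ} (D : Dat n) (K z B k v j A : ℕ) (s C₁ C₂ σ C : ℝ) (hC₁ : 1 ≤ C₁)
    (hC : 64 * C ≤ Real.exp z) (hvB : v ≤ B) (hH : D.Hom z B k s C₁)
    (hs : s ≤ j + 1 - σ) (hσ : C₂ + 2 * C₁ + A + K + 4 ≤ σ * (v * Real.log 2)) :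
    64 * C * Real.exp (C₂ * z - D.g k * Real.log 2 - (j + 1) * (v * (z * Real.log 2))) ≤
      1 / 2 ^ (D.g (k + v) + A * z) := by
  have hl := l2
  have hl' := l2'
  have hz : (0 : ℝ) ≤ z := Nat.cast_nonneg z
  refine (mul_le_mul_of_nonneg_right hC (Real.exp_pos _).le).trans ?_
  rw [tp, one_div, ← Real.exp_neg, ← Real.exp_add, Real.exp_le_exp]
  have h1 := (abs_le.1 (hH v hvB)).2
  have h2 : D.g (k + v) * Real.log 2 ≤ (D.g k + s * (v * z) + C₁ * z) * Real.log 2 :=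
    mul_le_mul_of_nonneg_right (by linarith only [h1]) hl.le
  have h3 : σ * (v * (z * Real.log 2)) ≤ (j + 1 - s) * (v * (z * Real.log 2)) :=
    mul_le_mul_of_nonneg_right (by linarith only [hs]) (by positivity)
  have h4 : (C₂ + 2 * C₁ + A + K + 4) * z ≤ σ * (v * (z * Real.log 2)) := by
    calc (C₂ + 2 * C₁ + A + K + 4) * z ≤ σ * (v * Real.log 2) * z :=
          mul_le_mul_of_nonneg_right hσ hz
      _ = _ := by ring
  have h5 : C₁ * z * Real.log 2 ≤ C₁ * z := mul_le_of_le_one_right (by positivity) hl'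
  have h6 : A * z * Real.log 2 ≤ A * z := mul_le_of_le_one_right (by positivity) hl'
  have h7 : (0 : ℝ) ≤ K * z := by positivity
  have h8 : 0 ≤ C₁ * z := by positivity
  push_cast
  nlinarith only [h2, h3, h4, h5, h6, h7, h8]

/-- Numbers: the gradient. -/
lemma num3 {n : ℕ} (D : Dat n) (K w₀ z B k v j A : ℕ) (s C₁ C₂ σ C κ : ℝ) (hC₁ : 1 ≤ C₁)
    (hC₂ : 1 ≤ C₂) (hκ : κ ≤ 1) (hj : (j : ℝ) ≤ s)
    (hC : 64 * C ≤ Real.exp z) (hvB : v ≤ B) (hs : j + σ ≤ s)
    (hge : ((w₀ + k * z : ℕ) : ℝ) ≤ D.g k + κ * z)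
    (hv : C₂ + 2 * C₁ + A + K + 4 ≤ v * Real.log 2)
    (hσ : v * Real.log 2 + (C₂ + 2 * C₁ + A + K + 4) ≤ σ * ((B - v) * Real.log 2)) :
    C * (Real.exp (z - v * (z * Real.log 2)) + Real.exp ((C₂ + 1) * z - v * (z * Real.log 2)) +
        ee D K w₀ z B k v j s C₁ C₂) ≤ 1 / 8 := by
  have hl := l2
  have hl' := l2'
  have hz : (0 : ℝ) ≤ z := Nat.cast_nonneg z
  have hvB' : (v : ℝ) ≤ B := by exact_mod_cast hvB
  have hA : (0 : ℝ) ≤ A := Nat.cast_nonneg A
  have hK : (0 : ℝ) ≤ K := Nat.cast_nonneg K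
  have hvz : (C₂ + 2 * C₁ + A + K + 4) * z ≤ v * (z * Real.log 2) := by
    calc (C₂ + 2 * C₁ + A + K + 4) * z ≤ v * Real.log 2 * z := mul_le_mul_of_nonneg_right hv hz
      _ = _ := by ring
  have hAz : 0 ≤ A * (z : ℝ) := by positivity
  have hKz : 0 ≤ K * (z : ℝ) := by positivity
  have hC₁z : 0 ≤ C₁ * (z : ℝ) := by positivity
  have hC₂z : 0 ≤ C₂ * (z : ℝ) := by positivity
  have h1 : 64 * C * Real.exp (z - v * (z * Real.log 2)) ≤ 1 := by
    refine (mul_le_mul_of_nonneg_right hC (Real.exp_pos _).le).trans ?_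
    rw [← Real.exp_add, Real.exp_le_one_iff]
    nlinarith only [hvz, hAz, hKz, hC₁z, hC₂z]
  have h2 : 64 * C * Real.exp ((C₂ + 1) * z - v * (z * Real.log 2)) ≤ 1 := by
    refine (mul_le_mul_of_nonneg_right hC (Real.exp_pos _).le).trans ?_
    rw [← Real.exp_add, Real.exp_le_one_iff]
    nlinarith only [hvz, hAz, hKz, hC₁z]
  have h3 : 64 * C * ee D K w₀ z B k v j s C₁ C₂ ≤ 1 := by
    have h0 : 64 * C * ee D K w₀ z B k v j s C₁ C₂ ≤ Real.exp z * ee D K w₀ z B k v j s C₁ C₂ :=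
      mul_le_mul_of_nonneg_right hC (by unfold ee SS; positivity)
    refine h0.trans ?_
    unfold ee SS
    rw [tp, ← Real.exp_add, ← Real.exp_add, ← Real.exp_add, Real.exp_le_one_iff]
    have h3 : σ * ((B - v) * (z * Real.log 2)) ≤ (s - j) * ((B - v) * (z * Real.log 2)) :=
      mul_le_mul_of_nonneg_right (by linarith only [hs]) (mul_nonneg (by linarith) (by positivity))
    have h4 : v * (z * Real.log 2) + (C₂ + 2 * C₁ + A + K + 4) * z ≤
        σ * ((B - v) * (z * Real.log 2)) := by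
      calc v * (z * Real.log 2) + (C₂ + 2 * C₁ + A + K + 4) * z =
            (v * Real.log 2 + (C₂ + 2 * C₁ + A + K + 4)) * z := by ring
        _ ≤ σ * ((B - v) * Real.log 2) * z := mul_le_mul_of_nonneg_right hσ hz
        _ = _ := by ring
    have h5 : ((w₀ + k * z : ℕ) : ℝ) * Real.log 2 ≤ (D.g k + κ * z) * Real.log 2 :=
      mul_le_mul_of_nonneg_right hge hl.le
    have h6 : κ * z * Real.log 2 ≤ z := by
      have h7 : κ * z ≤ z := mul_le_of_le_one_left hz hκ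
      calc κ * z * Real.log 2 ≤ z * Real.log 2 := mul_le_mul_of_nonneg_right h7 hl.le
        _ ≤ z := mul_le_of_le_one_right hz hl'
    have h7 : 0 ≤ s * (v * (z * Real.log 2)) :=
      mul_nonneg ((Nat.cast_nonneg j).trans hj) (by positivity)
    push_cast at h5 ⊢
    nlinarith only [hAz, hC₁z, h3, h4, h6, h7, h5]
  linarith only [h1, h2, h3]

theorem non_thm (hJ : JETStmt) : NONStmt := by
  intro n K j A C₁ σ hn hC₁ hσ
  by_cases hjK : j ≤ K
  swap
  · refine ⟨0, fun B _ => ⟨1, one_pos, 0, ?_⟩⟩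
    intro J r w₀ z M k s D q Q Qb _ _ _ hsK hs
    exfalso
    have : (K : ℝ) < j := by exact_mod_cast Nat.lt_of_not_le hjK
    linarith only [hσ, hsK, hs, this]
  obtain ⟨C₂, hC₂, HJ⟩ := hJ n K j C₁ hn hC₁
  obtain ⟨Ch, hCh, Hh⟩ := height_lem n K j hjK
  obtain ⟨Cg, hCg, Hg⟩ := grad_ball n K j hjK
  obtain ⟨Cp, hCp, Hp⟩ := pair_lem n K j hjK
  have hl := l2
  obtain ⟨C', hC'⟩ : ∃ C' : ℝ, C' = C₂ + 2 * C₁ + A + K + 4 := ⟨_, rfl⟩
  have hC'0 : 0 ≤ C' := by
    rw [hC']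
    have h1 : (0 : ℝ) ≤ A := Nat.cast_nonneg A
    have h2 : (0 : ℝ) ≤ K := Nat.cast_nonneg K
    linarith only [hC₁, hC₂]
  obtain ⟨v, hv⟩ : ∃ v : ℕ, v = ⌈C' / (σ * Real.log 2)⌉₊ + ⌈C' / Real.log 2⌉₊ := ⟨_, rfl⟩
  have hv1 : C' ≤ σ * (v * Real.log 2) := by
    have h1 : C' / (σ * Real.log 2) ≤ v := by
      rw [hv]
      push_cast
      have := Nat.le_ceil (C' / (σ * Real.log 2))
      have h3 : (0 : ℝ) ≤ (⌈C' / Real.log 2⌉₊ : ℝ) := Nat.cast_nonneg _
      linarith only [this]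
    rw [div_le_iff₀ (by positivity)] at h1
    linarith only [h1]
  have hv2 : C' ≤ v * Real.log 2 := by
    have h1 : C' / Real.log 2 ≤ v := by
      rw [hv]
      push_cast
      have := Nat.le_ceil (C' / Real.log 2)
      have h3 : (0 : ℝ) ≤ (⌈C' / (σ * Real.log 2)⌉₊ : ℝ) := Nat.cast_nonneg _
      linarith only [this]
    rwa [div_le_iff₀ (by positivity)] at h1
  refine ⟨v + ⌈(v * Real.log 2 + C') / (σ * Real.log 2)⌉₊ + 2, ?_⟩
  intro B hB
  have hvB : v + 2 ≤ B := by omega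
  have hB1 : v * Real.log 2 + C' ≤ σ * ((B - v) * Real.log 2) := by
    have h1 : (v * Real.log 2 + C') / (σ * Real.log 2) ≤ B - v := by
      have h2 := Nat.le_ceil ((v * Real.log 2 + C') / (σ * Real.log 2))
      have h3 : (v : ℝ) + ⌈(v * Real.log 2 + C') / (σ * Real.log 2)⌉₊ + 2 ≤ B := by
        exact_mod_cast hB
      linarith only [h2, h3]
    rw [div_le_iff₀ (by positivity)] at h1
    linarith only [h1]
  have hB2 : C' ≤ σ * ((B - v) * Real.log 2) := by
    have : (0 : ℝ) ≤ v * Real.log 2 := by positivity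
    linarith only [hC₁, hC₂, hC', hv2, hB1]
  obtain ⟨κ₀, hκ₀, z₁, Hz⟩ := HJ B (1 / 16) (by omega) (by norm_num) (by norm_num)
  refine ⟨min κ₀ 1, lt_min hκ₀ one_pos, max z₁ ⌈(B : ℝ) + 64 * (Ch + Cg + Cp)⌉₊, ?_⟩
  intro J r w₀ z M k s D q Q Qb hz hOk hkM hsK hs1 hs2 hH hT
  have hz1 : z₁ ≤ z := (le_max_left _ _).trans hz
  have hz2 : (B : ℝ) + 64 * (Ch + Cg + Cp) ≤ z := by
    have h1 := Nat.le_ceil ((B : ℝ) + 64 * (Ch + Cg + Cp))
    have h2 : (⌈(B : ℝ) + 64 * (Ch + Cg + Cp)⌉₊ : ℝ) ≤ z := by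
      exact_mod_cast (le_max_right _ _).trans hz
    linarith only [h1, h2]
  have hez : (z : ℝ) ≤ Real.exp z := by linarith only [hσ, hs1, hs2, Real.add_one_le_exp (z : ℝ)]
  have hB0 : (0 : ℝ) ≤ B := Nat.cast_nonneg B
  have hBe : (B : ℝ) ≤ Real.exp z := by linarith only [hσ, hCh, hCg, hCp, hs1, hs2, hz2, hez]
  have hChe : 64 * Ch ≤ Real.exp z := by linarith only [hσ, hCg, hCp, hs1, hs2, hz2, hez]
  have hCge : 64 * Cg ≤ Real.exp z := by linarith only [hσ, hCh, hCp, hs1, hs2, hz2, hez]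
  have hCpe : 64 * Cp ≤ Real.exp z := by linarith only [hσ, hCh, hCg, hs1, hs2, hz2, hez]
  have hκ1 : min κ₀ 1 ≤ 1 := min_le_right _ _
  have hκp : 0 ≤ min κ₀ 1 := (lt_min hκ₀ one_pos).le
  obtain ⟨κ, hκ⟩ : ∃ κ, κ = min κ₀ 1 := ⟨_, rfl⟩
  have hκκ : κ ≤ κ₀ := by rw [hκ]; exact min_le_left _ _
  rw [← hκ] at hOk hκ1 hκp
  have hjs : (j : ℝ) ≤ s := by linarith only [hσ, hs1]
  have hsj : s ≤ j + 1 := by linarith only [hσ, hs2]
  have hJG := Hz J r w₀ z M k s D q Q Qb hz1 (ok_mono hOk hκκ) hkM hjs hsK hH hT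
  have hq := hOk.isLaw.nonneg
  have hkM' : k ≤ M := by omega
  have hk2 : k + v ≤ M := by omega
  have hyn : ∀ ω, 0 < q ω → ∀ i, |D.Y J ω i - ys D B k ω i| ≤
      Real.exp (κ * z) / 2 ^ (w₀ + (k + B) * z) := fun ω hω i => hOk.y₀_near (k + B) hkM ω hω i
  have hJle : w₀ + (k + v) * z ≤ J := by
    have h1 : (k + v) * z ≤ (M + 1) * z := Nat.mul_le_mul_right _ (by omega)
    have h2 := hOk.top
    have h3 := hOk.r_le
    omega
  -- the label
  classical
  obtain ⟨G, hG⟩ : ∃ G : D.Z → Pl n, G = fun x => if h : ∃ ω, 0 < q ω ∧ D.pt ω = x then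
      GG D B k j h.choose else 0 := ⟨_, rfl⟩
  have hGe : ∀ ω, 0 < q ω → G (D.pt ω) = GG D B k j ω := by
    intro ω hω
    have hex : ∃ ω', 0 < q ω' ∧ D.pt ω' = D.pt ω := ⟨ω, hω, rfl⟩
    rw [hG]
    simp only
    rw [dif_pos hex]
    have h1 := hex.choose_spec
    have c1 := hOk.c_pt k hkM' _ _ h1.1 hω h1.2
    have c2 := hOk.c_pt (k + B) hkM _ _ h1.1 hω h1.2
    unfold GG RR ys
    rw [c1, c2]
  have hGd : ∀ x, (G x).totalDegree ≤ K := by
    intro x
    rw [hG]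
    simp only
    split_ifs
    · unfold GG
      exact (MvPolynomial.totalDegree_add _ _).trans
        (max_le (hOk.F_deg _ _) ((tay_deg j _ _).trans hjK))
    · rw [MvPolynomial.totalDegree_zero]
      exact Nat.zero_le K
  have hn1 := num1 D K z B k v j A s C₁ C₂ σ Ch hC₁ hChe (by omega) hH hs1 (by rw [← hC']; exact hB2)
  have hn1' := num1 D K z B k v j A s C₁ C₂ σ Cp hC₁ hCpe (by omega) hH hs1
    (by rw [← hC']; exact hB2)
  have hn2 := num2 D K z B k v j A s C₁ C₂ σ Cp hC₁ hCpe (by omega) hH hs2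
    (by rw [← hC']; exact hv1)
  have hn3 := num3 D K w₀ z B k v j A s C₁ C₂ σ Cg κ hC₁ hC₂ hκ1 hjs hCge (by omega)
    hs1 (hOk.g_ge k hkM') (by rw [← hC']; exact hv2) (by rw [← hC']; exact hB1)
  have hSS := SS_pos D K z B k s C₁ C₂
  have hvB' : (v : ℝ) ≤ B := by
    have : v ≤ B := by omega
    exact_mod_cast this
  refine ⟨v, by omega, G, hGd, ?_, ?_, ?_⟩
  · -- the height
    refine le_trans (Pool.Agent.H39.BFL.Pb_mono hq fun ω hω hbad => ?_) (hJG.trans (by norm_num))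
    intro hgood
    rw [hGe ω hω] at hbad
    have h1 := Hh D J w₀ z B k s C₁ C₂ κ Q ω hOk.F_deg hC₁ hC₂ hκp hκ1 hBe hH hgood hsj
      (hyn ω hω) (hOk.F_hgt (k + B) hkM ω hω)
    have h2 : 1 ≤ Real.exp (j * ((B - v) * (z * Real.log 2))) := by
      refine Real.one_le_exp ?_
      exact mul_nonneg (Nat.cast_nonneg j) (mul_nonneg (by linarith only [hvB']) (by positivity))
    have h3 : Ch * SS D K z B k s C₁ C₂ ≤
        64 * Ch * (SS D K z B k s C₁ C₂ * Real.exp (j * ((B - v) * (z * Real.log 2)))) := by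
      have h4 : SS D K z B k s C₁ C₂ ≤
          SS D K z B k s C₁ C₂ * Real.exp (j * ((B - v) * (z * Real.log 2))) :=
        le_mul_of_one_le_right hSS.le h2
      have h5 : 0 ≤ Ch * (SS D K z B k s C₁ C₂ *
        Real.exp (j * ((B - v) * (z * Real.log 2)))) := by positivity
      have h6 := mul_le_mul_of_nonneg_left h4 (by linarith only [hσ, hCh, hs1, hs2] : 0 ≤ Ch)
      linarith only [hn1, hbad, h1, h5, h6]
    linarith only [hn1, hbad, h1, h3]
  · -- the gradient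
    refine le_trans (Pool.Agent.H39.BFL.Pb_mono hq fun ω hω hbad => ?_) (hJG.trans (by norm_num))
    intro hgood
    rw [hGe ω hω] at hbad
    refine hbad fun b hb i => ?_
    exact (Hg D J w₀ z B k v s C₁ C₂ κ Q ω hOk.F_deg hC₁ hκp hκ1 hBe hvB hH hgood hsj
      (hyn ω hω) (hOk.F_grad k hkM' ω hω) (hOk.g_ge k hkM') b hb i).trans hn3
  · -- the transport
    refine le_trans (P2_le hq _ _ (fun ω => ¬ D.JGd K J w₀ z B k j C₂ Q ω)
      fun ω ω' hω hω' hwn hbad => ?_) (by linarith only [hJG])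
    by_contra hcon
    push Not at hcon
    obtain ⟨hg1, hg2⟩ := hcon
    rw [hGe ω hω, hGe ω' hω'] at hbad
    refine hbad fun b hb => ?_
    have hwk : D.wn J (w₀ + k * z) ω = D.wn J (w₀ + k * z) ω' := by
      have hln : D.ln ω = D.ln ω' := congrArg Prod.fst hwn
      have hTv : D.T ω / 2 ^ (J - (w₀ + (k + v) * z)) = D.T ω' / 2 ^ (J - (w₀ + (k + v) * z)) :=
        congrArg Prod.snd hwn
      have hkv : w₀ + k * z ≤ w₀ + (k + v) * z := by
        have : k * z ≤ (k + v) * z := Nat.mul_le_mul_right _ (by omega)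
        omega
      have hTk : D.T ω / 2 ^ (J - (w₀ + k * z)) = D.T ω' / 2 ^ (J - (w₀ + k * z)) := by
        have e1 : J - (w₀ + k * z) = (J - (w₀ + (k + v) * z)) +
            ((w₀ + (k + v) * z) - (w₀ + k * z)) := by omega
        rw [e1, pow_add, ← Nat.div_div_eq_div_mul, ← Nat.div_div_eq_div_mul, hTv]
      unfold Dat.wn
      rw [hln, hTk]
    have hc := hOk.c_wn k hkM' ω ω' hω hω' hwk
    have h1 := Hp D J w₀ z B k v s C₁ C₂ κ Q ω ω' hOk.F_deg hT.deg hOk.E_le hJle hC₁ hκp hκ1 hBe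
      hvB hH hg1 hg2 hsj (hyn ω hω) (hyn ω' hω') hwn hc b hb
    refine h1.trans ?_
    have h2 : (0 : ℝ) < 1 / 2 ^ (D.g (k + v) + A * z) := by positivity
    rw [mul_add]
    linarith only [hn1', hn2, h2]

end Pool.Agent.H32.BFL
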