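import Pool.Agent.H19.BFL.Stmts2
import Pool.Agent.H80.BFL.TRA
import Pool.Agent.H4.BFL.JTE
import Pool.Agent.H1.BFL.JTB
import Pool.Agent.H39.BFL.Det

/-!
# Taylor polynomials at neighbouring points

Deterministic estimates for the row NON (slope not an integer).
-/

set_option autoImplicit false

namespace Pool.Agent.H32.BFL

open Finset
open Pool.BFL
open Pool.Agent.H36.KBX (bx mem_bx support_bx eval_bound)

variable {n : ℕ}

lemma sh_add (y : Fin n → ℝ) (F G : Pl n) : sh y (F + G) = sh y F + sh y G := by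
  unfold sh
  rw [map_add]

lemma sh_sub (y : Fin n → ℝ) (F G : Pl n) : sh y (F - G) = sh y F - sh y G := by
  unfold sh
  rw [map_sub]

lemma sh_sum {ι : Type} (y : Fin n → ℝ) (s : Finset ι) (f : ι → Pl n) :
    sh y (∑ i ∈ s, f i) = ∑ i ∈ s, sh y (f i) := by
  unfold sh
  rw [map_sum]

lemma sh_sh (y z : Fin n → ℝ) (F : Pl n) : sh y (sh z F) = sh (fun i => z i + y i) F := by
  apply MvPolynomial.funext
  intro x
  rw [Pool.BFL.eval_sh, Pool.BFL.eval_sh, Pool.BFL.eval_sh]
  refine congrArg (fun v => MvPolynomial.eval v F) ?_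
  funext i
  ring

lemma sh_zero (F : Pl n) : sh (fun _ => 0) F = F := by
  apply MvPolynomial.funext
  intro x
  rw [Pool.BFL.eval_sh]
  refine congrArg (fun v => MvPolynomial.eval v F) ?_
  funext i
  ring

lemma sh_neg_right (y : Fin n → ℝ) (F : Pl n) : sh y (sh (fun l => -y l) F) = F := by
  rw [sh_sh]
  have h : (fun i => -y i + y i) = fun _ : Fin n => (0 : ℝ) := by
    funext i
    ring
  rw [h, sh_zero]

lemma sh_neg_left (y : Fin n → ℝ) (F : Pl n) : sh (fun l => -y l) (sh y F) = F := by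
  rw [sh_sh]
  have h : (fun i => y i + -y i) = fun _ : Fin n => (0 : ℝ) := by
    funext i
    ring
  rw [h, sh_zero]

lemma sh_tay (j : ℕ) (F : Pl n) (y : Fin n → ℝ) :
    sh y (tay j F y) = ∑ i ∈ range j, jt i F y := by
  unfold tay
  rw [sh_sum]
  exact Finset.sum_congr rfl fun i _ => sh_neg_right y _

lemma tay_deg (j : ℕ) (F : Pl n) (y : Fin n → ℝ) : (tay (j + 1) F y).totalDegree ≤ j := by
  unfold tay
  refine MvPolynomial.totalDegree_finsetSum_le fun i hi => ?_
  refine degree_sh _ _ ?_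
  refine (Tra.jt_homog i F y).totalDegree_le.trans ?_
  rw [Finset.mem_range] at hi
  omega

lemma sum_jt (j : ℕ) (F : Pl n) (y : Fin n → ℝ) (hF : F.totalDegree ≤ j) :
    ∑ i ∈ range (j + 1), jt i F y = sh y F := by
  unfold jt
  conv_rhs => rw [← MvPolynomial.sum_homogeneousComponent (sh y F)]
  symm
  refine Finset.sum_subset ?_ fun i _ hi => ?_
  · intro i hi
    rw [Finset.mem_range] at hi ⊢
    have := degree_sh y F hF
    omega
  · refine MvPolynomial.homogeneousComponent_eq_zero _ _ ?_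
    rw [Finset.mem_range] at hi
    omega

/-- A polynomial of degree at most `j` is its Taylor polynomial. -/
lemma tay_self (j : ℕ) (F : Pl n) (y : Fin n → ℝ) (hF : F.totalDegree ≤ j) :
    tay (j + 1) F y = F := by
  have h1 := sh_tay (j + 1) F y
  rw [sum_jt j F y hF] at h1
  have h2 : sh (fun l => -y l) (sh y (tay (j + 1) F y)) = sh (fun l => -y l) (sh y F) := by
    rw [h1]
  rwa [sh_neg_left, sh_neg_left] at h2

lemma jt_tay (i j : ℕ) (F : Pl n) (y : Fin n → ℝ) :
    jt i (tay (j + 1) F y) y = if i ≤ j then jt i F y else 0 := by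
  have h1 : jt i (tay (j + 1) F y) y =
      MvPolynomial.homogeneousComponent i (∑ l ∈ range (j + 1), jt l F y) := by
    rw [← sh_tay]
    rfl
  rw [h1, map_sum]
  have h2 : ∀ l ∈ range (j + 1), MvPolynomial.homogeneousComponent i (jt l F y) =
      if i = l then jt l F y else 0 := fun l _ =>
    MvPolynomial.homogeneousComponent_of_mem (Tra.jt_homog l F y)
  rw [Finset.sum_congr rfl h2, Finset.sum_ite_eq]
  simp only [Finset.mem_range, Nat.lt_succ_iff]

lemma jt_zero_of_deg (i K : ℕ) (F : Pl n) (y : Fin n → ℝ) (hF : F.totalDegree ≤ K) (hi : K < i) :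
    jt i F y = 0 := by
  unfold jt
  refine MvPolynomial.homogeneousComponent_eq_zero _ _ ?_
  have := degree_sh y F hF
  omega

lemma tay_sub (j : ℕ) (F G : Pl n) (y : Fin n → ℝ) : tay j (F - G) y = tay j F y - tay j G y := by
  unfold tay
  rw [← Finset.sum_sub_distrib]
  refine Finset.sum_congr rfl fun i _ => ?_
  rw [Tra.jt_sub, sh_sub]

lemma eval_jt_zero (F : Pl n) (y v : Fin n → ℝ) :
    MvPolynomial.eval v (jt 0 F y) = MvPolynomial.eval y F := by
  unfold jt
  rw [MvPolynomial.homogeneousComponent_zero, MvPolynomial.eval_C]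
  have h1 : MvPolynomial.coeff 0 (sh y F) = MvPolynomial.eval (fun _ => 0) (sh y F) := by
    rw [← MvPolynomial.constantCoeff_eq]
    have h2 : (MvPolynomial.eval fun _ : Fin n => (0 : ℝ)) = MvPolynomial.constantCoeff := by
      apply MvPolynomial.ringHom_ext
      · intro r
        rw [MvPolynomial.eval_C, MvPolynomial.constantCoeff_C]
      · intro i
        rw [MvPolynomial.eval_X, MvPolynomial.constantCoeff_X]
    rw [h2]
  rw [h1, Pool.BFL.eval_sh]
  refine congrArg (fun v => MvPolynomial.eval v F) ?_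
  funext i
  ring

lemma eval_homog_zero {i : ℕ} {G : Pl n} (hG : G.IsHomogeneous i) (hi : 1 ≤ i) :
    MvPolynomial.eval (fun _ => 0) G = 0 := by
  have h1 := Pool.BFL.eval_homog hG 0 (fun _ => 0)
  have h2 : (fun l : Fin n => (0 : ℝ) * (fun _ => (0 : ℝ)) l) = fun _ => 0 := by
    funext l
    ring
  rw [h2, zero_pow (by omega), zero_mul] at h1
  exact h1

/-- The value of the Taylor polynomial at its centre. -/
lemma eval_tay_self (j : ℕ) (F : Pl n) (y : Fin n → ℝ) :
    MvPolynomial.eval y (tay (j + 1) F y) = MvPolynomial.eval y F := by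
  rw [Tra.eval_tay, Finset.sum_range_succ']
  have h1 : (fun l => y l - y l) = fun _ : Fin n => (0 : ℝ) := by
    funext l
    ring
  rw [h1, eval_jt_zero]
  have h2 : ∑ i ∈ range j, MvPolynomial.eval (fun _ : Fin n => (0 : ℝ)) (jt (i + 1) F y) = 0 :=
    Finset.sum_eq_zero fun i _ => eval_homog_zero (Tra.jt_homog (i + 1) F y) (by omega)
  rw [h2, zero_add]

/-- The sum of the jets. -/
lemma eval_jets (K : ℕ) (F : Pl n) (y x : Fin n → ℝ) (hF : F.totalDegree ≤ K) :
    MvPolynomial.eval x F =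
      ∑ i ∈ range (K + 1), MvPolynomial.eval (fun l => x l - y l) (jt i F y) := by
  rw [← map_sum, sum_jt K F y hF, Pool.BFL.eval_sh]
  refine congrArg (fun v => MvPolynomial.eval v F) ?_
  funext i
  ring

/-- The Taylor polynomial of degree `j` from the jets. -/
lemma tay_bound (n j : ℕ) : ∃ C : ℝ, 1 ≤ C ∧ ∀ (G : Pl n) (y x : Fin n → ℝ) (ρ L S : ℝ),
    0 < ρ → ρ ≤ L → 0 ≤ S → (∀ i ≤ j, CB (jt i G y) (S / ρ ^ i)) →
    (∀ i, |x i - y i| ≤ 2 * L) →
    |MvPolynomial.eval x (tay (j + 1) G y)| ≤ C * S * (L / ρ) ^ j := by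
  choose Cf hCf0 hCf using fun i => Tra.hom_bound n i 2 one_le_two
  refine ⟨1 + ∑ i ∈ range (j + 1), Cf i, ?_, ?_⟩
  · have : 0 ≤ ∑ i ∈ range (j + 1), Cf i := Finset.sum_nonneg fun i _ => hCf0 i
    linarith
  intro G y x ρ L S hρ hL hS hG hx
  have hL0 : 0 < L := hρ.trans_le hL
  have hq : 1 ≤ L / ρ := by
    rw [le_div_iff₀ hρ]
    linarith
  rw [Tra.eval_tay]
  refine (Finset.abs_sum_le_sum_abs _ _).trans ?_
  have h1 : ∀ i ∈ range (j + 1), |MvPolynomial.eval (fun l => x l - y l) (jt i G y)| ≤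
      Cf i * (S * (L / ρ) ^ j) := by
    intro i hi
    rw [Finset.mem_range, Nat.lt_succ_iff] at hi
    refine (hCf i _ _ L _ (Tra.jt_homog i G y) (hG i hi) hL0 hx).trans ?_
    have h2 : Cf i * (S / ρ ^ i) * L ^ i = Cf i * (S * (L / ρ) ^ i) := by
      rw [div_pow]
      field_simp
    rw [h2]
    exact mul_le_mul_of_nonneg_left (mul_le_mul_of_nonneg_left (pow_le_pow_right₀ hq hi) hS)
      (hCf0 i)
  refine (Finset.sum_le_sum h1).trans ?_
  rw [← Finset.sum_mul]
  have h2 : 0 ≤ S * (L / ρ) ^ j := by positivity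
  nlinarith

/-- **The shift of the base point.** -/
lemma shift_lem (n K j : ℕ) (hjK : j ≤ K) : ∃ C : ℝ, 1 ≤ C ∧
    ∀ (R : Pl n) (y y' x : Fin n → ℝ) (ρ L S : ℝ), R.totalDegree ≤ K → 0 < ρ → ρ ≤ L → 0 ≤ S →
    (∀ i, |y' i - y i| ≤ ρ) → (∀ i, j < i → i ≤ K → CB (jt i R y) (S / ρ ^ i)) →
    (∀ i, |x i - y i| ≤ L) →
    |MvPolynomial.eval x (tay (j + 1) R y') - MvPolynomial.eval x (tay (j + 1) R y)| ≤
      C * S * (L / ρ) ^ j := by
  obtain ⟨C₁, hC₁, H₁⟩ := jte_thm n K
  obtain ⟨C₂, hC₂, H₂⟩ := Pool.Agent.H1.BFL.jtb_thm n K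
  obtain ⟨C₃, hC₃, H₃⟩ := tay_bound n j
  refine ⟨C₃ * (C₂ * (C₁ * 2 ^ K)), ?_, ?_⟩
  · have h1 : (1 : ℝ) ≤ 2 ^ K := one_le_pow₀ one_le_two
    exact one_le_mul_of_one_le_of_one_le hC₃
      (one_le_mul_of_one_le_of_one_le hC₂ (one_le_mul_of_one_le_of_one_le hC₁ h1))
  intro R y y' x ρ L S hR hρ hL hS hy hj hx
  obtain ⟨T, hT⟩ : ∃ T, T = tay (j + 1) R y := ⟨_, rfl⟩
  obtain ⟨R', hR'⟩ : ∃ R', R' = R - T := ⟨_, rfl⟩
  have hTd : T.totalDegree ≤ j := by rw [hT]; exact tay_deg j R y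
  have hR'd : R'.totalDegree ≤ K := by
    rw [hR']
    exact (MvPolynomial.totalDegree_sub _ _).trans (max_le hR (hTd.trans hjK))
  have e1 : tay (j + 1) R y' - T = tay (j + 1) R' y' := by
    rw [hR', tay_sub, tay_self j T y' hTd]
  have h1 : ∀ i ≤ K, CB (jt i R' y) (S * 2 ^ K / (2 * ρ) ^ i) := by
    intro i hi
    have e2 : jt i R' y = if i ≤ j then 0 else jt i R y := by
      rw [hR', Tra.jt_sub, hT, jt_tay]
      split_ifs
      · rw [sub_self]
      · rw [sub_zero]
    rw [e2]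
    split_ifs with h
    · intro k
      rw [MvPolynomial.coeff_zero, abs_zero]
      positivity
    · refine Pool.Agent.H39.BFL.CB_mono (hj i (by omega) hi) ?_
      rw [mul_pow, div_le_div_iff₀ (by positivity) (by positivity)]
      have h3 : (2 : ℝ) ^ i ≤ 2 ^ K := pow_le_pow_right₀ one_le_two hi
      have h4 : 0 ≤ S * ρ ^ i := by positivity
      nlinarith
  have h2 := H₁ R' y (2 * ρ) (S * 2 ^ K) hR'd (by positivity) (by positivity) h1
  have h3 := H₂ R' y' ρ (C₁ * (S * 2 ^ K)) hR'd hρ fun b hb => h2 b fun i => by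
    have e1 := hb i
    have e2 := hy i
    rw [abs_le] at e1 e2 ⊢
    constructor <;> linarith [e1.1, e1.2, e2.1, e2.2]
  have h4 := H₃ R' y' x ρ L (C₂ * (C₁ * (S * 2 ^ K))) hρ hL (by positivity)
    (fun i _ => h3 i) fun i => by
    have e1 := hx i
    have e2 := hy i
    rw [abs_le] at e1 e2 ⊢
    constructor <;> linarith [e1.1, e1.2, e2.1, e2.2]
  rw [← map_sub, ← hT, e1]
  refine h4.trans (le_of_eq ?_)
  ring

/-- **The variation of a polynomial.** -/
lemma var_lem (n K : ℕ) : ∃ C : ℝ, 1 ≤ C ∧ ∀ (P : Pl n) (y b : Fin n → ℝ) (r L S : ℝ),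
    P.totalDegree ≤ K → 0 < L → L ≤ r → 0 ≤ S →
    (∀ b : Fin n → ℝ, (∀ i, |b i - y i| ≤ r) → |MvPolynomial.eval b P| ≤ S) →
    (∀ i, |b i - y i| ≤ L) → |MvPolynomial.eval b P - MvPolynomial.eval y P| ≤ C * S * (L / r) := by
  obtain ⟨C₂, hC₂, H₂⟩ := Pool.Agent.H1.BFL.jtb_thm n K
  choose Cf hCf0 hCf using fun i => Tra.hom_bound n i 1 le_rfl
  refine ⟨1 + (∑ i ∈ range K, Cf (i + 1)) * C₂, ?_, ?_⟩
  · have : 0 ≤ ∑ i ∈ range K, Cf (i + 1) := Finset.sum_nonneg fun i _ => hCf0 _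
    have := mul_nonneg this (zero_le_one.trans hC₂)
    linarith
  intro P y b r L S hP hL hr hS hb hx
  have hr0 : 0 < r := hL.trans_le hr
  have h1 := H₂ P y r S hP hr0 hb
  rw [eval_jets K P y b hP, Finset.sum_range_succ', eval_jt_zero, add_sub_cancel_right]
  refine (Finset.abs_sum_le_sum_abs _ _).trans ?_
  have hq : L / r ≤ 1 := by
    rw [div_le_one hr0]
    exact hr
  have hq0 : 0 ≤ L / r := by positivity
  have h2 : ∀ i ∈ range K, |MvPolynomial.eval (fun l => b l - y l) (jt (i + 1) P y)| ≤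
      Cf (i + 1) * (C₂ * S * (L / r)) := by
    intro i _
    refine (hCf (i + 1) _ _ L _ (Tra.jt_homog (i + 1) P y) (h1 (i + 1)) hL fun l => by
      rw [one_mul]; exact hx l).trans ?_
    have h2 : Cf (i + 1) * (C₂ * S / r ^ (i + 1)) * L ^ (i + 1) =
        Cf (i + 1) * (C₂ * S * (L / r) ^ (i + 1)) := by
      rw [div_pow]
      field_simp
    rw [h2]
    refine mul_le_mul_of_nonneg_left (mul_le_mul_of_nonneg_left ?_ (by positivity)) (hCf0 _)
    exact pow_le_of_le_one hq0 hq (by omega)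
  refine (Finset.sum_le_sum h2).trans ?_
  rw [← Finset.sum_mul]
  have h3 : 0 ≤ S * (L / r) := by positivity
  nlinarith

lemma pderiv_sh (y : Fin n → ℝ) (F : Pl n) (i : Fin n) :
    MvPolynomial.pderiv i (sh y F) = sh y (MvPolynomial.pderiv i F) := by
  unfold sh
  induction F using MvPolynomial.induction_on with
  | C a =>
    rw [MvPolynomial.pderiv_C, map_zero, MvPolynomial.aeval_C]
    have h : (algebraMap ℝ (MvPolynomial (Fin n) ℝ)) a = MvPolynomial.C a := rfl
    rw [h, MvPolynomial.pderiv_C]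
  | add p q hp hq => rw [map_add, map_add, map_add, map_add, hp, hq]
  | mul_X p l hp =>
    rw [map_mul, MvPolynomial.aeval_X, Derivation.leibniz, Derivation.leibniz, hp, map_add,
      map_add, MvPolynomial.pderiv_X, MvPolynomial.pderiv_C, add_zero]
    simp only [smul_eq_mul, map_mul, MvPolynomial.aeval_X]
    congr 1
    congr 1
    by_cases h : i = l
    · subst h
      rw [Pi.single_eq_same, map_one]
    · rw [Pi.single_eq_of_ne (Ne.symm h), map_zero]

/-- The derivative from the jets. -/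
lemma eval_pderiv_jets (K : ℕ) (F : Pl n) (y x : Fin n → ℝ) (i : Fin n) (hF : F.totalDegree ≤ K) :
    MvPolynomial.eval x (MvPolynomial.pderiv i F) =
      ∑ l ∈ range (K + 1),
        MvPolynomial.eval (fun m => x m - y m) (MvPolynomial.pderiv i (jt l F y)) := by
  rw [← map_sum, ← map_sum, sum_jt K F y hF, pderiv_sh, Pool.BFL.eval_sh]
  refine congrArg (fun v => MvPolynomial.eval v (MvPolynomial.pderiv i F)) ?_
  funext i
  ring

lemma CB_pderiv {D : ℕ} {P : Pl n} {r : ℝ} (hP : P.totalDegree ≤ D) (h : CB P r) (hr : 0 ≤ r)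
    (i : Fin n) : CB (MvPolynomial.pderiv i P) ((D + 1) * r) := by
  intro k
  rw [MvPolynomial.coeff_pderiv, abs_mul]
  by_cases h0 : P.coeff (k + Finsupp.single i 1) = 0
  · rw [h0, abs_zero, zero_mul]
    positivity
  · have h1 : (k i : ℝ) + 1 ≤ D + 1 := by
      have h2 := support_bx P hP (MvPolynomial.mem_support_iff.2 h0)
      rw [mem_bx] at h2
      have h3 := h2 i
      rw [Finsupp.add_apply, Finsupp.single_eq_same] at h3
      have : k i ≤ D := by omega
      have h4 : (k i : ℝ) ≤ D := by exact_mod_cast this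
      linarith
    rw [abs_of_nonneg (show (0 : ℝ) ≤ (k i : ℝ) + 1 by positivity), mul_comm]
    exact mul_le_mul h1 (h _) (abs_nonneg _) (by positivity)

/-- **The variation of the gradient.** -/
lemma grad_lem (n K : ℕ) : ∃ C : ℝ, 1 ≤ C ∧ ∀ (P : Pl n) (y b : Fin n → ℝ) (L S : ℝ) (i : Fin n),
    P.totalDegree ≤ K → 0 < L → 0 ≤ S →
    (∀ l, 2 ≤ l → l ≤ K → CB (jt l P y) (S / L ^ (l - 1))) → (∀ i, |b i - y i| ≤ L) →
    |MvPolynomial.eval b (MvPolynomial.pderiv i P) -
      MvPolynomial.eval y (MvPolynomial.pderiv i P)| ≤ C * S := by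
  choose Cf hCf0 hCf using fun i => Tra.hom_bound n i 1 le_rfl
  refine ⟨1 + ∑ l ∈ range K, Cf l * (K + 1), ?_, ?_⟩
  · have : 0 ≤ ∑ l ∈ range K, Cf l * ((K : ℝ) + 1) := Finset.sum_nonneg fun i _ =>
      mul_nonneg (hCf0 _) (by positivity)
    linarith
  intro P y b L S i hP hL hS hj hb
  rw [eval_pderiv_jets K P y b i hP, eval_pderiv_jets K P y y i hP, ← Finset.sum_sub_distrib,
    Finset.sum_range_succ']
  have e0 : (fun m => y m - y m) = fun _ : Fin n => (0 : ℝ) := by
    funext l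
    ring
  rw [e0]
  have e1 : MvPolynomial.pderiv i (jt 0 P y) = 0 := by
    unfold jt
    rw [MvPolynomial.homogeneousComponent_zero, MvPolynomial.pderiv_C]
  rw [e1, map_zero, map_zero, sub_zero, add_zero]
  refine (Finset.abs_sum_le_sum_abs _ _).trans ?_
  have h2 : ∀ l ∈ range K, |MvPolynomial.eval (fun m => b m - y m)
      (MvPolynomial.pderiv i (jt (l + 1) P y)) - MvPolynomial.eval (fun _ => 0)
      (MvPolynomial.pderiv i (jt (l + 1) P y))| ≤ Cf l * (K + 1) * S := by
    intro l hl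
    rw [Finset.mem_range] at hl
    have h3 : (MvPolynomial.pderiv i (jt (l + 1) P y)).IsHomogeneous l := by
      have := (Tra.jt_homog (l + 1) P y).pderiv (i := i)
      rwa [Nat.add_sub_cancel] at this
    rcases Nat.eq_zero_or_pos l with h0 | h0
    · subst h0
      have h4 := MvPolynomial.totalDegree_eq_zero_iff_eq_C.1 (Nat.le_zero.1 h3.totalDegree_le)
      rw [h4, MvPolynomial.eval_C, MvPolynomial.eval_C, sub_self, abs_zero]
      have := hCf0 0
      positivity
    · rw [eval_homog_zero h3 h0, sub_zero]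
      have h4 := hj (l + 1) (by omega) (by omega)
      rw [Nat.add_sub_cancel] at h4
      have h5 : CB (MvPolynomial.pderiv i (jt (l + 1) P y)) ((K + 1) * (S / L ^ l)) :=
        CB_pderiv (D := K) ((Tra.jt_homog (l + 1) P y).totalDegree_le.trans (by omega)) h4
          (by positivity) i
      refine (hCf l _ _ L _ h3 h5 hL fun m => by rw [one_mul]; exact hb m).trans (le_of_eq ?_)
      field_simp
  refine (Finset.sum_le_sum h2).trans ?_
  rw [← Finset.sum_mul]
  nlinarith

end Pool.Agent.H32.BFL
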