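import Pool.Agent.H19.BFL.Stmts3
import Pool.Agent.H32.BFL.NonA
import Pool.Agent.H40.BFL.MKO
import Pool.Agent.H25.BFL.LJT

/-!
# The Taylor polynomials of one sample

Deterministic estimates for the row NON (slope not an integer).
-/

set_option autoImplicit false

namespace Pool.Agent.H32.BFL

open Finset
open Pool.BFL
open Pool.Agent.H39.BFL (CB_mono CB_symm)

/-- **Transport along a line.** -/
lemma trans_lem (n K j : ℕ) : ∃ C : ℝ, 1 ≤ C ∧ ∀ (P : Pl n) (A E x : Fin n → ℝ)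
    (t₁ t₂ r S L : ℝ), P.totalDegree ≤ K → 0 < r → 0 ≤ S → 0 < L → (∀ i, |E i| ≤ 1) →
    t₁ ∈ Set.Icc 0 r → t₂ ∈ Set.Icc 0 r → |t₂ - t₁| ≤ L →
    (∀ t ∈ Set.Icc 0 r, CB (jt j P (fun l => A l + t * E l)) S) →
    (∀ i, |x i - (A i + t₁ * E i)| ≤ L) →
    |MvPolynomial.eval x (tay (j + 1) P (fun l => A l + t₂ * E l)) -
      MvPolynomial.eval x (tay (j + 1) P (fun l => A l + t₁ * E l))| ≤ C * (S / r) * L ^ (j + 1) := by
  obtain ⟨C₁, hC₁, H₁⟩ := Pool.Agent.H40.BFL.mko_thm K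
  obtain ⟨C₂, hC₂, H₂⟩ := Tra.hom_bound n j 2 one_le_two
  refine ⟨1 + C₂ * C₁, by nlinarith, ?_⟩
  intro P A E x t₁ t₂ r S L hP hr hS hL hE ht₁ ht₂ ht hj hx
  have h1 : ∀ t ∈ Set.Icc 0 r,
      CB (dE E (jt (j + 1) P (fun l => A l + t * E l))) (C₁ * S / r) := by
    intro t ht k
    obtain ⟨q, hq1, hq2, hq3⟩ := Pool.Agent.H25.BFL.ljt_thm n K j P A E k hP
    rw [← hq3 t]
    have h2 := H₁ q 0 r S hq1 hr
    rw [zero_add] at h2
    exact h2 (fun t ht => by rw [hq2]; exact hj t ht k) t ht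
  have hT := Pool.Agent.H67.BFL.tal_thm n (j + 1) P (fun l => A l + t₁ * E l) E (t₂ - t₁) x
  have e1 : (fun i => A i + t₁ * E i + (t₂ - t₁) * E i) = fun i => A i + t₂ * E i := by
    funext i
    ring
  rw [e1] at hT
  rw [hT]
  have hb : ∀ τ ∈ Set.uIoc (0 : ℝ) (t₂ - t₁),
      ‖MvPolynomial.eval (fun i => x i - (A i + t₁ * E i) - τ * E i)
        (dE E (jt (j + 1) P (fun i => A i + t₁ * E i + τ * E i)))‖ ≤
        C₂ * (C₁ * S / r) * L ^ j := by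
    intro τ hτ
    have hτ1 : τ ∈ Set.uIcc (0 : ℝ) (t₂ - t₁) := Set.uIoc_subset_uIcc hτ
    have hτ2 : |τ| ≤ |t₂ - t₁| := by
      have := Set.abs_sub_left_of_mem_uIcc hτ1
      rwa [sub_zero, sub_zero] at this
    have hτ3 : t₁ + τ ∈ Set.Icc 0 r := by
      rw [Set.mem_uIcc] at hτ1
      rcases hτ1 with h | h
      · exact ⟨by linarith [ht₁.1, h.1], by linarith [ht₂.2, h.2]⟩
      · exact ⟨by linarith [ht₂.1, h.1], by linarith [ht₁.2, h.2]⟩
    have e2 : (fun i => A i + t₁ * E i + τ * E i) = fun i => A i + (t₁ + τ) * E i := by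
      funext i
      ring
    rw [Real.norm_eq_abs, e2]
    have h3 : (dE E (jt (j + 1) P (fun i => A i + (t₁ + τ) * E i))).IsHomogeneous j := by
      have := dD_homog (Tra.jt_homog (j + 1) P (fun i => A i + (t₁ + τ) * E i)) E
      rwa [Nat.add_sub_cancel] at this
    refine H₂ _ _ L _ h3 (h1 _ hτ3) hL fun l => ?_
    have e3 : |τ * E l| ≤ L := by
      rw [abs_mul]
      calc |τ| * |E l| ≤ L * 1 := mul_le_mul (hτ2.trans ht) (hE l) (abs_nonneg _) hL.le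
        _ = L := mul_one _
    have e4 := hx l
    rw [abs_le] at e3 e4 ⊢
    constructor <;> linarith [e3.1, e3.2, e4.1, e4.2]
  have hI := intervalIntegral.norm_integral_le_of_norm_le_const hb
  rw [Real.norm_eq_abs, sub_zero] at hI
  refine hI.trans ?_
  have h5 : 0 ≤ C₂ * (C₁ * S / r) * L ^ j := by positivity
  have h6 : 0 ≤ S / r * L ^ (j + 1) := by positivity
  calc C₂ * (C₁ * S / r) * L ^ j * |t₂ - t₁| ≤ C₂ * (C₁ * S / r) * L ^ j * L :=
        mul_le_mul_of_nonneg_left ht h5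
    _ = C₂ * C₁ * (S / r * L ^ (j + 1)) := by rw [pow_succ]; ring
    _ ≤ (1 + C₂ * C₁) * (S / r * L ^ (j + 1)) := mul_le_mul_of_nonneg_right (by linarith) h6
    _ = _ := by ring

lemma tp (m : ℕ) : (2 : ℝ) ^ m = Real.exp (m * Real.log 2) := by
  rw [mul_comm, Real.exp_mul, Real.exp_log two_pos, Real.rpow_natCast]

lemma l2 : 0 < Real.log 2 := Real.log_pos one_lt_two

lemma l2' : Real.log 2 ≤ 1 := by
  have := Real.log_two_lt_d9
  linarith

lemma l2'' : 1 ≤ 2 * Real.log 2 := by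
  have := Real.log_two_gt_d9
  linarith

lemma jt_sum {n : ℕ} (i B : ℕ) (f : ℕ → Pl n) (y : Fin n → ℝ) :
    jt i (∑ v ∈ range B, f v) y = ∑ v ∈ range B, jt i (f v) y := by
  unfold jt
  rw [sh_sum, map_sum]

section

variable {n : ℕ}

/-- The difference of the ball polynomials of the levels `k + B` and `k`. -/
noncomputable def RR (D : Dat n) (B k : ℕ) (ω : D.Ω) : Pl n :=
  D.F (k + B) (D.c (k + B) ω) - D.F k (D.c k ω)

/-- The base point, as a function of the label of the level `k + B`. -/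
noncomputable def ys (D : Dat n) (B k : ℕ) (ω : D.Ω) : Fin n → ℝ := D.y₀ (k + B) (D.c (k + B) ω)

/-- The new label. -/
noncomputable def GG (D : Dat n) (B k j : ℕ) (ω : D.Ω) : Pl n :=
  D.F k (D.c k ω) + tay (j + 1) (RR D B k ω) (ys D B k ω)

/-- The size of the jets. -/
noncomputable def SS (D : Dat n) (K z B k : ℕ) (s C₁ C₂ : ℝ) : ℝ :=
  Real.exp ((C₂ + C₁ + K + 1) * z - (D.g k + s * (B * z)) * Real.log 2)

lemma SS_pos (D : Dat n) (K z B k : ℕ) (s C₁ C₂ : ℝ) : 0 < SS D K z B k s C₁ C₂ := Real.exp_pos _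

lemma RR_deg (D : Dat n) (K B k : ℕ) (ω : D.Ω) (hF : ∀ k x, (D.F k x).totalDegree ≤ K) :
    (RR D B k ω).totalDegree ≤ K :=
  (MvPolynomial.totalDegree_sub _ _).trans (max_le (hF _ _) (hF _ _))

/-- The jets of high order of the difference. -/
lemma RR_jets (D : Dat n) (K J w₀ z B k j : ℕ) (s C₁ C₂ κ : ℝ) (Q : D.Λ × ℕ → Pl n) (ω : D.Ω)
    (hC₁ : 1 ≤ C₁) (hκ0 : 0 ≤ κ) (hκ : κ ≤ 1) (hB : (B : ℝ) ≤ Real.exp z)
    (hH : D.Hom z B k s C₁) (hG : D.JGd K J w₀ z B k j C₂ Q ω) (hs : s ≤ j + 1) (i : ℕ)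
    (hi : j < i) (hiK : i ≤ K) :
    CB (jt i (RR D B k ω) (D.Y J ω))
      (SS D K z B k s C₁ C₂ / (Real.exp (κ * z) / 2 ^ (w₀ + (k + B) * z)) ^ i) := by
  have hl := l2
  have hl' := l2'
  have hz : (0 : ℝ) ≤ z := Nat.cast_nonneg z
  have hij : (j : ℝ) + 1 ≤ i := by exact_mod_cast hi
  have hiK' : (i : ℝ) ≤ K := by exact_mod_cast hiK
  have e0 : RR D B k ω = ∑ v ∈ range B, (D.F (k + v + 1) (D.c (k + v + 1) ω) -
      D.F (k + v) (D.c (k + v) ω)) := by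
    have := Finset.sum_range_sub (fun v => D.F (k + v) (D.c (k + v) ω)) B
    exact this.symm
  have h1 : ∀ v < B, Real.exp (C₂ * z) * 2 ^ (i * (w₀ + (k + v) * z)) / 2 ^ D.g (k + v) ≤
      Real.exp ((C₂ + C₁) * z + i * ((w₀ + (k + B) * z : ℕ) : ℝ) * Real.log 2 -
        (D.g k + s * (B * z)) * Real.log 2) := by
    intro v hv
    rw [tp, tp, ← Real.exp_add, ← Real.exp_sub, Real.exp_le_exp]
    have h2 := (abs_le.1 (hH v hv.le)).1
    have hvB : (v : ℝ) ≤ B := by exact_mod_cast hv.le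
    have h3 : 0 ≤ (i - s) * ((B - v) * (z * Real.log 2)) := by
      refine mul_nonneg (by linarith) (mul_nonneg (by linarith) (by positivity))
    have h4 : (D.g k + s * (v * z) - C₁ * z) * Real.log 2 ≤ D.g (k + v) * Real.log 2 :=
      mul_le_mul_of_nonneg_right (by linarith) hl.le
    have h5 : C₁ * z * Real.log 2 ≤ C₁ * z :=
      mul_le_of_le_one_right (by positivity) hl'
    push_cast
    nlinarith
  intro m
  rw [e0, jt_sum, MvPolynomial.coeff_sum]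
  refine (Finset.abs_sum_le_sum_abs _ _).trans ?_
  have h2 : ∀ v ∈ range B, |((jt i (D.F (k + v + 1) (D.c (k + v + 1) ω) -
      D.F (k + v) (D.c (k + v) ω)) (D.Y J ω)).coeff m)| ≤
      Real.exp ((C₂ + C₁) * z + i * ((w₀ + (k + B) * z : ℕ) : ℝ) * Real.log 2 -
        (D.g k + s * (B * z)) * Real.log 2) := by
    intro v hv
    rw [Finset.mem_range] at hv
    exact (hG.b0 v hv i hiK m).trans (h1 v hv)
  refine (Finset.sum_le_card_nsmul _ _ _ h2).trans ?_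
  rw [Finset.card_range, nsmul_eq_mul]
  refine (mul_le_mul_of_nonneg_right hB (Real.exp_pos _).le).trans ?_
  unfold SS
  rw [← Real.exp_add, tp, ← Real.exp_sub, ← Real.exp_nat_mul, ← Real.exp_sub, Real.exp_le_exp]
  have h3 : (i : ℝ) * (κ * z) ≤ K * z := by
    have h4 : κ * z ≤ z := mul_le_of_le_one_left hz hκ
    have h5 : (0 : ℝ) ≤ κ * z := by positivity
    exact mul_le_mul hiK' h4 h5 (Nat.cast_nonneg K)
  linarith

/-- The distance of the base points. -/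
lemma rho_le (w₀ z B k v : ℕ) (κ : ℝ) (hκ : κ ≤ 1) (hv : v + 2 ≤ B) :
    Real.exp (κ * z) / 2 ^ (w₀ + (k + B) * z) ≤ 1 / 2 ^ (w₀ + (k + v) * z) := by
  have hl := l2''
  rw [div_le_div_iff₀ (by positivity) (by positivity), one_mul, tp, tp, ← Real.exp_add,
    Real.exp_le_exp]
  have hz : (0 : ℝ) ≤ z := Nat.cast_nonneg z
  have h1 : (v : ℝ) + 2 ≤ B := by exact_mod_cast hv
  have h2 : κ * z ≤ z := mul_le_of_le_one_left hz hκ
  have h3 : (2 : ℝ) * (z * Real.log 2) ≤ (B - v) * (z * Real.log 2) :=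
    mul_le_mul_of_nonneg_right (by linarith) (by positivity)
  have h4 : (z : ℝ) ≤ 2 * Real.log 2 * z := by nlinarith
  push_cast
  nlinarith

/-- The shift error on the ball of radius `2 ^ (-(w₀ + (k + v) z))`. -/
lemma shift_ball (n K j : ℕ) (hjK : j ≤ K) : ∃ C : ℝ, 1 ≤ C ∧
    ∀ (D : Dat n) (J w₀ z B k v : ℕ) (s C₁ C₂ κ : ℝ) (Q : D.Λ × ℕ → Pl n) (ω : D.Ω),
    (∀ k x, (D.F k x).totalDegree ≤ K) → 1 ≤ C₁ → 0 ≤ κ → κ ≤ 1 → (B : ℝ) ≤ Real.exp z →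
    v + 2 ≤ B → D.Hom z B k s C₁ → D.JGd K J w₀ z B k j C₂ Q ω → s ≤ j + 1 →
    (∀ i, |D.Y J ω i - ys D B k ω i| ≤ Real.exp (κ * z) / 2 ^ (w₀ + (k + B) * z)) →
    ∀ b : Fin n → ℝ, (∀ i, |b i - D.Y J ω i| ≤ 2 * (1 / 2 ^ (w₀ + (k + v) * z))) →
    |MvPolynomial.eval b (tay (j + 1) (RR D B k ω) (ys D B k ω)) -
      MvPolynomial.eval b (tay (j + 1) (RR D B k ω) (D.Y J ω))| ≤
      C * SS D K z B k s C₁ C₂ * Real.exp (j * ((B - v) * (z * Real.log 2))) := by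
  obtain ⟨C, hC, H⟩ := shift_lem n K j hjK
  refine ⟨C * 2 ^ j, one_le_mul_of_one_le_of_one_le hC (one_le_pow₀ one_le_two), ?_⟩
  intro D J w₀ z B k v s C₁ C₂ κ Q ω hF hC₁ hκ0 hκ hB hv hH hG hs hy b hb
  have h0 := rho_le w₀ z B k v κ hκ hv
  have hS := SS_pos D K z B k s C₁ C₂
  have h1 := H (RR D B k ω) (D.Y J ω) (ys D B k ω) b (Real.exp (κ * z) / 2 ^ (w₀ + (k + B) * z))
    (2 * (1 / 2 ^ (w₀ + (k + v) * z))) (SS D K z B k s C₁ C₂) (RR_deg D K B k ω hF)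
    (by positivity) (by
      have : (0 : ℝ) < 1 / 2 ^ (w₀ + (k + v) * z) := by positivity
      linarith) hS.le (fun i => by rw [abs_sub_comm]; exact hy i)
    (fun i hi hiK => RR_jets D K J w₀ z B k j s C₁ C₂ κ Q ω hC₁ hκ0 hκ hB hH hG hs i hi hiK) hb
  refine h1.trans ?_
  have h2 : 2 * (1 / 2 ^ (w₀ + (k + v) * z)) / (Real.exp (κ * z) / 2 ^ (w₀ + (k + B) * z)) ≤
      2 * Real.exp ((B - v) * (z * Real.log 2)) := by
    rw [div_le_iff₀ (by positivity), tp, tp, mul_assoc, one_div, ← Real.exp_neg, ← Real.exp_sub,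
      ← Real.exp_add]
    refine mul_le_mul_of_nonneg_left (Real.exp_le_exp.2 ?_) zero_le_two
    have hz : (0 : ℝ) ≤ κ * z := by positivity
    push_cast
    linarith
  have h3 : (2 * (1 / 2 ^ (w₀ + (k + v) * z)) /
      (Real.exp (κ * z) / 2 ^ (w₀ + (k + B) * z)) : ℝ) ^ j ≤
      2 ^ j * Real.exp (j * ((B - v) * (z * Real.log 2))) := by
    refine (pow_le_pow_left₀ (by positivity) h2 j).trans (le_of_eq ?_)
    rw [mul_pow, ← Real.exp_nat_mul]
  calc C * SS D K z B k s C₁ C₂ * _ ≤ C * SS D K z B k s C₁ C₂ *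
        (2 ^ j * Real.exp (j * ((B - v) * (z * Real.log 2)))) :=
        mul_le_mul_of_nonneg_left h3 (by positivity)
    _ = _ := by ring

/-- **One sample.** The Taylor polynomial of the label against the Taylor polynomial of the
tube. -/
lemma one_side (n K j : ℕ) (hjK : j ≤ K) : ∃ C : ℝ, 1 ≤ C ∧
    ∀ (D : Dat n) (J w₀ z B k v : ℕ) (s C₁ C₂ κ : ℝ) (Q : D.Λ × ℕ → Pl n) (ω : D.Ω),
    (∀ k x, (D.F k x).totalDegree ≤ K) → 1 ≤ C₁ → 0 ≤ κ → κ ≤ 1 → (B : ℝ) ≤ Real.exp z →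
    v + 2 ≤ B → D.Hom z B k s C₁ → D.JGd K J w₀ z B k j C₂ Q ω → s ≤ j + 1 →
    (∀ i, |D.Y J ω i - ys D B k ω i| ≤ Real.exp (κ * z) / 2 ^ (w₀ + (k + B) * z)) →
    ∀ b : Fin n → ℝ, (∀ i, |b i - D.Y J ω i| ≤ 2 * (1 / 2 ^ (w₀ + (k + v) * z))) →
    |MvPolynomial.eval b (tay (j + 1) (RR D B k ω) (ys D B k ω)) -
      MvPolynomial.eval b (tay (j + 1) (Q (D.wn J (w₀ + k * z) ω) - D.F k (D.c k ω))
        (D.Y J ω))| ≤
      C * SS D K z B k s C₁ C₂ * Real.exp (j * ((B - v) * (z * Real.log 2))) := by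
  obtain ⟨C, hC, H⟩ := shift_ball n K j hjK
  obtain ⟨C', hC', H'⟩ := tay_bound n j
  refine ⟨C + C', by linarith, ?_⟩
  intro D J w₀ z B k v s C₁ C₂ κ Q ω hF hC₁ hκ0 hκ hB hv hH hG hs hy b hb
  have h1 := H D J w₀ z B k v s C₁ C₂ κ Q ω hF hC₁ hκ0 hκ hB hv hH hG hs hy b hb
  have hS := SS_pos D K z B k s C₁ C₂
  have hl := l2
  have hl' := l2'
  have hz : (0 : ℝ) ≤ z := Nat.cast_nonneg z
  have h0 := rho_le w₀ z B k v 0 zero_le_one hv
  rw [zero_mul, Real.exp_zero] at h0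
  obtain ⟨P, hP⟩ : ∃ P, P = Q (D.wn J (w₀ + k * z) ω) - D.F k (D.c k ω) := ⟨_, rfl⟩
  have e1 : tay (j + 1) (RR D B k ω) (D.Y J ω) - tay (j + 1) P (D.Y J ω) =
      tay (j + 1) (D.F (k + B) (D.c (k + B) ω) - Q (D.wn J (w₀ + k * z) ω)) (D.Y J ω) := by
    rw [← tay_sub, hP]
    congr 1
    unfold RR
    ring
  have h2 : ∀ i ≤ j, CB (jt i (D.F (k + B) (D.c (k + B) ω) - Q (D.wn J (w₀ + k * z) ω))
      (D.Y J ω)) (SS D K z B k s C₁ C₂ / (1 / 2 ^ (w₀ + (k + B) * z)) ^ i) := by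
    intro i hi
    have h3 := hG.b2 i (hi.trans hjK)
    have h4 : CB (jt i (D.F (k + B) (D.c (k + B) ω) - Q (D.wn J (w₀ + k * z) ω))
        (D.Y J ω)) (Real.exp (C₂ * z) * 2 ^ (i * (w₀ + (k + B) * z)) / 2 ^ D.g (k + B)) := by
      rw [Tra.jt_sub] at h3 ⊢
      exact CB_symm h3
    refine CB_mono h4 ?_
    have e2 : SS D K z B k s C₁ C₂ / (1 / 2 ^ (w₀ + (k + B) * z)) ^ i =
        SS D K z B k s C₁ C₂ * 2 ^ (i * (w₀ + (k + B) * z)) := by
      rw [div_pow, one_pow, ← pow_mul, mul_comm i]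
      field_simp
    rw [e2]
    unfold SS
    rw [tp, tp, ← Real.exp_add, ← Real.exp_sub, ← Real.exp_add, Real.exp_le_exp]
    have h5 := (abs_le.1 (hH B le_rfl)).1
    have h6 : (D.g k + s * (B * z) - C₁ * z) * Real.log 2 ≤ D.g (k + B) * Real.log 2 :=
      mul_le_mul_of_nonneg_right (by linarith) hl.le
    have h7 : C₁ * z * Real.log 2 ≤ C₁ * z :=
      mul_le_of_le_one_right (by positivity) hl'
    have h8 : (0 : ℝ) ≤ K * z := by positivity
    linarith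
  have h3 := H' (D.F (k + B) (D.c (k + B) ω) - Q (D.wn J (w₀ + k * z) ω)) (D.Y J ω) b
    (1 / 2 ^ (w₀ + (k + B) * z)) (1 / 2 ^ (w₀ + (k + v) * z)) (SS D K z B k s C₁ C₂)
    (by positivity) h0 hS.le h2 hb
  rw [← e1, map_sub] at h3
  have e3 : ((1 : ℝ) / 2 ^ (w₀ + (k + v) * z) / (1 / 2 ^ (w₀ + (k + B) * z))) ^ j =
      Real.exp (j * ((B - v) * (z * Real.log 2))) := by
    rw [tp, tp, one_div, one_div, ← Real.exp_neg, ← Real.exp_neg, ← Real.exp_sub,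
      ← Real.exp_nat_mul]
    congr 1
    push_cast
    ring
  rw [e3] at h3
  rw [← hP]
  have e4 : MvPolynomial.eval b (tay (j + 1) (RR D B k ω) (ys D B k ω)) -
      MvPolynomial.eval b (tay (j + 1) P (D.Y J ω)) =
      (MvPolynomial.eval b (tay (j + 1) (RR D B k ω) (ys D B k ω)) -
      MvPolynomial.eval b (tay (j + 1) (RR D B k ω) (D.Y J ω))) +
      (MvPolynomial.eval b (tay (j + 1) (RR D B k ω) (D.Y J ω)) -
      MvPolynomial.eval b (tay (j + 1) P (D.Y J ω))) := by ring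
  rw [e4]
  refine (abs_add_le _ _).trans ?_
  linarith

end

end Pool.Agent.H32.BFL
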