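import Pool.Agent.H32.BFL.NonB

/-!
# The new label: height, gradient and transport

Deterministic estimates for the row NON (slope not an integer).
-/

set_option autoImplicit false

namespace Pool.Agent.H32.BFL

open Finset
open Pool.BFL
open Pool.Agent.H39.BFL (CB_mono CB_symm)

variable {n : ℕ}

/-- The height. -/
lemma height_lem (n K j : ℕ) (hjK : j ≤ K) : ∃ C : ℝ, 1 ≤ C ∧
    ∀ (D : Dat n) (J w₀ z B k : ℕ) (s C₁ C₂ κ : ℝ) (Q : D.Λ × ℕ → Pl n) (ω : D.Ω),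
    (∀ k x, (D.F k x).totalDegree ≤ K) → 1 ≤ C₁ → 1 ≤ C₂ → 0 ≤ κ → κ ≤ 1 → (B : ℝ) ≤ Real.exp z →
    D.Hom z B k s C₁ → D.JGd K J w₀ z B k j C₂ Q ω → s ≤ j + 1 →
    (∀ i, |D.Y J ω i - ys D B k ω i| ≤ Real.exp (κ * z) / 2 ^ (w₀ + (k + B) * z)) →
    |D.rh J (k + B) ω| ≤ Real.exp (κ * z) / 2 ^ D.g (k + B) →
    |D.h ω - MvPolynomial.eval (D.Y J ω) (GG D B k j ω)| ≤ C * SS D K z B k s C₁ C₂ := by
  obtain ⟨C, hC, H⟩ := shift_lem n K j hjK
  refine ⟨C + 1, by linarith, ?_⟩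
  intro D J w₀ z B k s C₁ C₂ κ Q ω hF hC₁ hC₂ hκ0 hκ hB hH hG hs hy hh
  have hS := SS_pos D K z B k s C₁ C₂
  have hl := l2
  have hl' := l2'
  have hz : (0 : ℝ) ≤ z := Nat.cast_nonneg z
  have h1 := H (RR D B k ω) (D.Y J ω) (ys D B k ω) (D.Y J ω)
    (Real.exp (κ * z) / 2 ^ (w₀ + (k + B) * z)) (Real.exp (κ * z) / 2 ^ (w₀ + (k + B) * z))
    (SS D K z B k s C₁ C₂) (RR_deg D K B k ω hF) (by positivity) le_rfl hS.le
    (fun i => by rw [abs_sub_comm]; exact hy i)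
    (fun i hi hiK => RR_jets D K J w₀ z B k j s C₁ C₂ κ Q ω hC₁ hκ0 hκ hB hH hG hs i hi hiK)
    (fun i => by rw [sub_self, abs_zero]; positivity)
  rw [div_self (by positivity), one_pow, mul_one, eval_tay_self] at h1
  have h2 : Real.exp (κ * z) / 2 ^ D.g (k + B) ≤ SS D K z B k s C₁ C₂ := by
    unfold SS
    rw [tp, ← Real.exp_sub, Real.exp_le_exp]
    have h5 := (abs_le.1 (hH B le_rfl)).1
    have h6 : (D.g k + s * (B * z) - C₁ * z) * Real.log 2 ≤ D.g (k + B) * Real.log 2 :=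
      mul_le_mul_of_nonneg_right (by linarith only [h5]) hl.le
    have h7 : C₁ * z * Real.log 2 ≤ C₁ * z :=
      mul_le_of_le_one_right (by positivity) hl'
    have h8 : (0 : ℝ) ≤ K * z := by positivity
    have h9 : κ * z ≤ z := mul_le_of_le_one_left hz hκ
    have h10 : (0 : ℝ) ≤ C₂ * z := mul_nonneg (by linarith only [hC₂]) hz
    linarith only [h6, h7, h8, h9, h10]
  have e1 : D.h ω - MvPolynomial.eval (D.Y J ω) (GG D B k j ω) = D.rh J (k + B) ω -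
      (MvPolynomial.eval (D.Y J ω) (tay (j + 1) (RR D B k ω) (ys D B k ω)) -
        MvPolynomial.eval (D.Y J ω) (RR D B k ω)) := by
    unfold GG Dat.rh RR
    rw [map_add, map_sub]
    ring
  rw [e1]
  refine (abs_sub _ _).trans ?_
  linarith only [hh, h1, h2]

/-- The bound of the gradient error of the shift. -/
noncomputable def ee (D : Dat n) (K w₀ z B k v j : ℕ) (s C₁ C₂ : ℝ) : ℝ :=
  SS D K z B k s C₁ C₂ * Real.exp (j * ((B - v) * (z * Real.log 2))) * 2 ^ (w₀ + (k + v) * z)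

/-- The gradient. -/
lemma grad_ball (n K j : ℕ) (hjK : j ≤ K) : ∃ C : ℝ, 1 ≤ C ∧
    ∀ (D : Dat n) (J w₀ z B k v : ℕ) (s C₁ C₂ κ : ℝ) (Q : D.Λ × ℕ → Pl n) (ω : D.Ω),
    (∀ k x, (D.F k x).totalDegree ≤ K) → 1 ≤ C₁ → 0 ≤ κ → κ ≤ 1 → (B : ℝ) ≤ Real.exp z →
    v + 2 ≤ B → D.Hom z B k s C₁ → D.JGd K J w₀ z B k j C₂ Q ω → s ≤ j + 1 →
    (∀ i, |D.Y J ω i - ys D B k ω i| ≤ Real.exp (κ * z) / 2 ^ (w₀ + (k + B) * z)) →
    (∀ b : Fin n → ℝ, (∀ i, |b i - D.Y J ω i| ≤ 1 / 2 ^ (w₀ + k * z)) →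
      ∀ i, |MvPolynomial.eval b (MvPolynomial.pderiv i (D.F k (D.c k ω)))| ≤ Real.exp (κ * z)) →
    ((w₀ + k * z : ℕ) : ℝ) ≤ D.g k + κ * z →
    ∀ b : Fin n → ℝ, (∀ i, |b i - D.Y J ω i| ≤ 1 / 2 ^ (w₀ + (k + v) * z)) → ∀ i,
    |MvPolynomial.eval b (MvPolynomial.pderiv i (GG D B k j ω)) -
      MvPolynomial.eval (D.Y J ω) (MvPolynomial.pderiv i (GG D B k j ω))| ≤
      C * (Real.exp (z - v * (z * Real.log 2)) + Real.exp ((C₂ + 1) * z - v * (z * Real.log 2)) +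
        ee D K w₀ z B k v j s C₁ C₂) := by
  obtain ⟨C, hC, H⟩ := shift_ball n K j hjK
  obtain ⟨Cv, hCv, Hv⟩ := var_lem n K
  obtain ⟨Cg, hCg, Hg⟩ := grad_lem n K
  obtain ⟨Cj, hCj, Hj⟩ := Pool.Agent.H1.BFL.jtb_thm n K
  refine ⟨Cv + Cg + Cg * (Cj * C), by
    have : 0 ≤ Cg * (Cj * C) := by positivity
    linarith only [hCv, hCg, this], ?_⟩
  intro D J w₀ z B k v s C₁ C₂ κ Q ω hF hC₁ hκ0 hκ hB hv hH hG hs hy hgr hge b hb i
  have hS := SS_pos D K z B k s C₁ C₂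
  have hl := l2
  have hl' := l2'
  have hz : (0 : ℝ) ≤ z := Nat.cast_nonneg z
  have hκz : κ * z ≤ z := mul_le_of_le_one_left hz hκ
  obtain ⟨L, hL⟩ : ∃ L : ℝ, L = 1 / 2 ^ (w₀ + (k + v) * z) := ⟨_, rfl⟩
  have hL0 : 0 < L := by rw [hL]; positivity
  obtain ⟨T₀, hT₀⟩ : ∃ T₀, T₀ = tay (j + 1) (RR D B k ω) (D.Y J ω) := ⟨_, rfl⟩
  obtain ⟨E₁, hE₁⟩ : ∃ E₁, E₁ = tay (j + 1) (RR D B k ω) (ys D B k ω) - T₀ := ⟨_, rfl⟩
  have hT₀d : T₀.totalDegree ≤ K := by rw [hT₀]; exact (tay_deg j _ _).trans hjK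
  have hE₁d : E₁.totalDegree ≤ K := by
    rw [hE₁]
    exact (MvPolynomial.totalDegree_sub _ _).trans (max_le ((tay_deg j _ _).trans hjK) hT₀d)
  have e0 : GG D B k j ω = D.F k (D.c k ω) + T₀ + E₁ := by
    unfold GG
    rw [hE₁]
    ring
  -- the ball polynomial
  have h1 : |MvPolynomial.eval b (MvPolynomial.pderiv i (D.F k (D.c k ω))) -
      MvPolynomial.eval (D.Y J ω) (MvPolynomial.pderiv i (D.F k (D.c k ω)))| ≤
      Cv * Real.exp (z - v * (z * Real.log 2)) := by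
    have hd : (MvPolynomial.pderiv i (D.F k (D.c k ω))).totalDegree ≤ K :=
      (Pool.Agent.H50.PW.totalDegree_pderiv_le _ i).trans (hF _ _)
    have hLr : L ≤ 1 / 2 ^ (w₀ + k * z) := by
      rw [hL]
      refine one_div_le_one_div_of_le (by positivity) (pow_le_pow_right₀ one_le_two ?_)
      have : k * z ≤ (k + v) * z := Nat.mul_le_mul_right _ (by omega)
      omega
    have h2 := Hv _ (D.Y J ω) b (1 / 2 ^ (w₀ + k * z)) L (Real.exp (κ * z)) hd hL0 hLr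
      (Real.exp_pos _).le (fun b hb => hgr b hb i) (by rw [hL]; exact hb)
    refine h2.trans ?_
    rw [mul_assoc]
    refine mul_le_mul_of_nonneg_left ?_ (by linarith only [hCv])
    rw [hL, tp, tp, one_div, one_div, ← Real.exp_neg, ← Real.exp_neg, ← Real.exp_sub,
      ← Real.exp_add, Real.exp_le_exp]
    push_cast
    linarith only [hκz]
  -- the Taylor polynomial at the point
  have h2 : |MvPolynomial.eval b (MvPolynomial.pderiv i T₀) -
      MvPolynomial.eval (D.Y J ω) (MvPolynomial.pderiv i T₀)| ≤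
      Cg * Real.exp ((C₂ + 1) * z - v * (z * Real.log 2)) := by
    refine Hg T₀ (D.Y J ω) b L _ i hT₀d hL0 (Real.exp_pos _).le (fun l hl2 hlK => ?_)
      (by rw [hL]; exact hb)
    rw [hT₀, jt_tay]
    split_ifs with hlj
    · have h3 := hG.b1 B le_rfl l hlK
      have h4 : (l - j) * (B * z) = 0 := by
        rw [Nat.sub_eq_zero_of_le hlj, Nat.zero_mul]
      rw [h4, add_zero] at h3
      refine CB_mono h3 ?_
      have hl1 : ((l - 1 : ℕ) : ℝ) = (l : ℝ) - 1 := by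
        rw [Nat.cast_sub (by omega)]
        norm_num
      have hl2' : (2 : ℝ) ≤ l := by exact_mod_cast hl2
      rw [hL, tp, tp, tp, one_div, ← Real.exp_neg, ← Real.exp_nat_mul, ← Real.exp_add,
        ← Real.exp_sub, ← Real.exp_sub, Real.exp_le_exp, hl1]
      push_cast at hge ⊢
      have h5 : 0 ≤ ((l : ℝ) - 2) * (v * (z * Real.log 2)) :=
        mul_nonneg (by linarith only [hl2']) (by positivity)
      have h6 : ((w₀ : ℝ) + k * z) * Real.log 2 ≤ (D.g k + κ * z) * Real.log 2 :=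
        mul_le_mul_of_nonneg_right hge hl.le
      have h7 : κ * z * Real.log 2 ≤ z :=
        (mul_le_of_le_one_right (by positivity) hl').trans hκz
      nlinarith only [h5, h6, h7]
    · intro m
      rw [MvPolynomial.coeff_zero, abs_zero]
      positivity
  -- the shift
  have h3 : |MvPolynomial.eval b (MvPolynomial.pderiv i E₁) -
      MvPolynomial.eval (D.Y J ω) (MvPolynomial.pderiv i E₁)| ≤
      Cg * (Cj * C * ee D K w₀ z B k v j s C₁ C₂) := by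
    have h4 := Hj E₁ (D.Y J ω) L (C * SS D K z B k s C₁ C₂ *
      Real.exp (j * ((B - v) * (z * Real.log 2)))) hE₁d hL0 (fun b hb => by
        rw [hE₁, map_sub, hT₀]
        refine H D J w₀ z B k v s C₁ C₂ κ Q ω hF hC₁ hκ0 hκ hB hv hH hG hs hy b fun i => ?_
        have := hb i
        rw [← hL]
        linarith only [hL0, this])
    refine Hg E₁ (D.Y J ω) b L _ i hE₁d hL0 ?_ (fun l hl2 hlK => ?_) (by rw [hL]; exact hb)
    · unfold ee
      positivity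
    · refine CB_mono (h4 l) (le_of_eq ?_)
      have e1 : L ^ l = L ^ (l - 1) * L := by
        rw [← pow_succ]
        congr 1
        omega
      have e2 : (2 : ℝ) ^ (w₀ + (k + v) * z) = 1 / L := by
        rw [hL, one_div_one_div]
      unfold ee
      rw [e1, e2]
      field_simp
  rw [e0, map_add, map_add, map_add, map_add, map_add, map_add]
  have e2 : MvPolynomial.eval b (MvPolynomial.pderiv i (D.F k (D.c k ω))) +
      MvPolynomial.eval b (MvPolynomial.pderiv i T₀) +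
      MvPolynomial.eval b (MvPolynomial.pderiv i E₁) -
      (MvPolynomial.eval (D.Y J ω) (MvPolynomial.pderiv i (D.F k (D.c k ω))) +
      MvPolynomial.eval (D.Y J ω) (MvPolynomial.pderiv i T₀) +
      MvPolynomial.eval (D.Y J ω) (MvPolynomial.pderiv i E₁)) =
      (MvPolynomial.eval b (MvPolynomial.pderiv i (D.F k (D.c k ω))) -
      MvPolynomial.eval (D.Y J ω) (MvPolynomial.pderiv i (D.F k (D.c k ω)))) +
      (MvPolynomial.eval b (MvPolynomial.pderiv i T₀) -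
      MvPolynomial.eval (D.Y J ω) (MvPolynomial.pderiv i T₀)) +
      (MvPolynomial.eval b (MvPolynomial.pderiv i E₁) -
      MvPolynomial.eval (D.Y J ω) (MvPolynomial.pderiv i E₁)) := by ring
  rw [e2]
  refine (abs_add_three _ _ _).trans ?_
  have p1 := (Real.exp_pos (z - v * (z * Real.log 2))).le
  have p2 := (Real.exp_pos ((C₂ + 1) * z - v * (z * Real.log 2))).le
  have p3 : 0 ≤ ee D K w₀ z B k v j s C₁ C₂ := by
    unfold ee
    positivity
  have p4 : 0 ≤ Cg * (Cj * C) := by positivity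
  have q1 := mul_nonneg (by linarith only [hCg, p4] : 0 ≤ Cg + Cg * (Cj * C)) p1
  have q2 := mul_nonneg (by linarith only [hCv, p4] : 0 ≤ Cv + Cg * (Cj * C)) p2
  have q3 := mul_nonneg (by linarith only [hCv, hCg] : 0 ≤ Cv + Cg) p3
  nlinarith only [h1, h2, h3, q1, q2, q3]

/-- Two times of one window of length `2 ^ (-m)`. -/
lemma div_close {J m T T' : ℕ} (hm : m ≤ J) (h : T / 2 ^ (J - m) = T' / 2 ^ (J - m)) :
    |(T' : ℝ) / 2 ^ J - T / 2 ^ J| ≤ 1 / 2 ^ m := by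
  have h1 : 0 < 2 ^ (J - m) := by positivity
  have h2 : T < T' + 2 ^ (J - m) := by
    have h3 := Nat.div_add_mod T (2 ^ (J - m))
    have h4 := Nat.div_add_mod T' (2 ^ (J - m))
    have h5 := Nat.mod_lt T h1
    rw [← h] at h4
    omega
  have h2' : T' < T + 2 ^ (J - m) := by
    have h3 := Nat.div_add_mod T (2 ^ (J - m))
    have h4 := Nat.div_add_mod T' (2 ^ (J - m))
    have h5 := Nat.mod_lt T' h1
    rw [← h] at h4
    omega
  have h3 : (T : ℝ) ≤ T' + 2 ^ (J - m) := by exact_mod_cast h2.le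
  have h3' : (T' : ℝ) ≤ T + 2 ^ (J - m) := by exact_mod_cast h2'.le
  have e1 : (2 : ℝ) ^ J = 2 ^ m * 2 ^ (J - m) := by
    rw [← pow_add]
    congr 1
    omega
  rw [← sub_div, abs_div, abs_of_pos (show (0 : ℝ) < 2 ^ J by positivity),
    div_le_div_iff₀ (by positivity) (by positivity), e1]
  have h4 : |(T' : ℝ) - T| ≤ 2 ^ (J - m) := by
    rw [abs_le]
    constructor <;> linarith
  have h5 : (0 : ℝ) < 2 ^ m := by positivity
  nlinarith only [h4, h5]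

/-- The relative time in the window. -/
lemma rel_time {J m T : ℕ} (hm : m ≤ J) :
    (T : ℝ) / 2 ^ J - ((T / 2 ^ (J - m) : ℕ) : ℝ) / 2 ^ m ∈ Set.Icc (0 : ℝ) (1 / 2 ^ m) := by
  have h1 : 0 < 2 ^ (J - m) := by positivity
  have h3 := Nat.div_add_mod T (2 ^ (J - m))
  have h5 := Nat.mod_lt T h1
  obtain ⟨a, ha⟩ : ∃ a, a = T / 2 ^ (J - m) := ⟨_, rfl⟩
  obtain ⟨r, hr⟩ : ∃ r, r = T % 2 ^ (J - m) := ⟨_, rfl⟩
  rw [← ha, ← hr] at h3
  rw [← hr] at h5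
  rw [← ha]
  have e1 : (2 : ℝ) ^ J = 2 ^ m * 2 ^ (J - m) := by
    rw [← pow_add]
    congr 1
    omega
  have e2 : (T : ℝ) = 2 ^ (J - m) * a + r := by exact_mod_cast h3.symm
  have h6 : (r : ℝ) ≤ 2 ^ (J - m) := by exact_mod_cast h5.le
  have e3 : (T : ℝ) / 2 ^ J - (a : ℝ) / 2 ^ m = r / (2 ^ m * 2 ^ (J - m)) := by
    rw [e1, e2]
    field_simp
    ring
  rw [e3]
  refine ⟨by positivity, ?_⟩
  rw [div_le_div_iff₀ (by positivity) (by positivity)]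
  have h7 : (0 : ℝ) < 2 ^ m := by positivity
  nlinarith only [h6, h7]

/-- **Two samples of one window.** -/
lemma pair_lem (n K j : ℕ) (hjK : j ≤ K) : ∃ C : ℝ, 1 ≤ C ∧
    ∀ (D : Dat n) (J w₀ z B k v : ℕ) (s C₁ C₂ κ : ℝ) (Q : D.Λ × ℕ → Pl n) (ω ω' : D.Ω),
    (∀ k x, (D.F k x).totalDegree ≤ K) → (∀ x, (Q x).totalDegree ≤ K) →
    (∀ l i, |D.E l i| ≤ 1) → w₀ + (k + v) * z ≤ J → 1 ≤ C₁ → 0 ≤ κ → κ ≤ 1 →
    (B : ℝ) ≤ Real.exp z → v + 2 ≤ B → D.Hom z B k s C₁ →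
    D.JGd K J w₀ z B k j C₂ Q ω → D.JGd K J w₀ z B k j C₂ Q ω' → s ≤ j + 1 →
    (∀ i, |D.Y J ω i - ys D B k ω i| ≤ Real.exp (κ * z) / 2 ^ (w₀ + (k + B) * z)) →
    (∀ i, |D.Y J ω' i - ys D B k ω' i| ≤ Real.exp (κ * z) / 2 ^ (w₀ + (k + B) * z)) →
    D.wn J (w₀ + (k + v) * z) ω = D.wn J (w₀ + (k + v) * z) ω' → D.c k ω = D.c k ω' →
    ∀ b : Fin n → ℝ, (∀ i, |b i - D.Y J ω i| ≤ 1 / 2 ^ (w₀ + (k + v) * z)) →
    |MvPolynomial.eval b (GG D B k j ω') - MvPolynomial.eval b (GG D B k j ω)| ≤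
      C * (SS D K z B k s C₁ C₂ * Real.exp (j * ((B - v) * (z * Real.log 2))) +
        Real.exp (C₂ * z - D.g k * Real.log 2 - (j + 1) * (v * (z * Real.log 2)))) := by
  obtain ⟨C, hC, H⟩ := one_side n K j hjK
  obtain ⟨Ct, hCt, Ht⟩ := trans_lem n K j
  refine ⟨2 * C + Ct, by linarith only [hC, hCt], ?_⟩
  intro D J w₀ z B k v s C₁ C₂ κ Q ω ω' hF hQ hE hJ hC₁ hκ0 hκ hB hv hH hG hG' hs hy hy' hwn hc
    b hb
  have hS := SS_pos D K z B k s C₁ C₂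
  have hl := l2
  have hz : (0 : ℝ) ≤ z := Nat.cast_nonneg z
  obtain ⟨L, hL⟩ : ∃ L : ℝ, L = 1 / 2 ^ (w₀ + (k + v) * z) := ⟨_, rfl⟩
  have hL0 : 0 < L := by rw [hL]; positivity
  have hln : D.ln ω = D.ln ω' := congrArg Prod.fst hwn
  have hTv : D.T ω / 2 ^ (J - (w₀ + (k + v) * z)) = D.T ω' / 2 ^ (J - (w₀ + (k + v) * z)) :=
    congrArg Prod.snd hwn
  have hkv : w₀ + k * z ≤ w₀ + (k + v) * z := by
    have : k * z ≤ (k + v) * z := Nat.mul_le_mul_right _ (by omega)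
    omega
  have hTk : D.T ω / 2 ^ (J - (w₀ + k * z)) = D.T ω' / 2 ^ (J - (w₀ + k * z)) := by
    have e1 : J - (w₀ + k * z) = (J - (w₀ + (k + v) * z)) +
        ((w₀ + (k + v) * z) - (w₀ + k * z)) := by omega
    rw [e1, pow_add, ← Nat.div_div_eq_div_mul, ← Nat.div_div_eq_div_mul, hTv]
  have hwk : D.wn J (w₀ + k * z) ω' = D.wn J (w₀ + k * z) ω := by
    unfold Dat.wn
    rw [hln, hTk]
  have hYE : ∀ ω₁ : D.Ω, D.Y J ω₁ = fun i => D.A (D.ln ω₁) i +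
      (D.T ω₁ : ℝ) / 2 ^ J * D.E (D.ln ω₁) i := fun ω₁ => rfl
  have hclose := div_close (J := J) (m := w₀ + (k + v) * z) hJ hTv
  have hYY : ∀ i, |D.Y J ω' i - D.Y J ω i| ≤ L := by
    intro i
    rw [hYE, hYE, ← hln]
    have e1 : D.A (D.ln ω) i + (D.T ω' : ℝ) / 2 ^ J * D.E (D.ln ω) i -
        (D.A (D.ln ω) i + (D.T ω : ℝ) / 2 ^ J * D.E (D.ln ω) i) =
        ((D.T ω' : ℝ) / 2 ^ J - D.T ω / 2 ^ J) * D.E (D.ln ω) i := by ring
    simp only
    rw [e1, abs_mul, hL]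
    calc |(D.T ω' : ℝ) / 2 ^ J - D.T ω / 2 ^ J| * |D.E (D.ln ω) i| ≤
          1 / 2 ^ (w₀ + (k + v) * z) * 1 :=
          mul_le_mul hclose (hE _ _) (abs_nonneg _) (by positivity)
      _ = _ := mul_one _
  -- the two samples
  have h1 := H D J w₀ z B k v s C₁ C₂ κ Q ω hF hC₁ hκ0 hκ hB hv hH hG hs hy b fun i => by
    have := hb i
    rw [← hL] at this ⊢
    linarith only [hL0, this]
  have h2 := H D J w₀ z B k v s C₁ C₂ κ Q ω' hF hC₁ hκ0 hκ hB hv hH hG' hs hy' b fun i => by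
    have e1 := hb i
    have e2 := hYY i
    rw [← hL] at e1 ⊢
    rw [abs_le] at e1 e2 ⊢
    constructor <;> linarith only [e1, e2, e1.1, e1.2, e2.1, e2.2]
  rw [hwk, ← hc] at h2
  obtain ⟨P, hP⟩ : ∃ P, P = Q (D.wn J (w₀ + k * z) ω) - D.F k (D.c k ω) := ⟨_, rfl⟩
  rw [← hP] at h1 h2
  have hPd : P.totalDegree ≤ K := by
    rw [hP]
    exact (MvPolynomial.totalDegree_sub _ _).trans (max_le (hQ _) (hF _ _))
  -- the transport
  obtain ⟨a, ha⟩ : ∃ a : ℕ, a = D.T ω / 2 ^ (J - (w₀ + k * z)) := ⟨_, rfl⟩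
  obtain ⟨A, hA⟩ : ∃ A : Fin n → ℝ, A = fun i => D.A (D.ln ω) i +
      (a : ℝ) / 2 ^ (w₀ + k * z) * D.E (D.ln ω) i := ⟨_, rfl⟩
  have hm : w₀ + k * z ≤ J := hkv.trans hJ
  have ht₁ := rel_time (J := J) (m := w₀ + k * z) (T := D.T ω) hm
  have ht₂ := rel_time (J := J) (m := w₀ + k * z) (T := D.T ω') hm
  rw [← hTk] at ht₂
  rw [← ha] at ht₁ ht₂
  obtain ⟨t₁, et₁⟩ : ∃ t₁ : ℝ, t₁ = (D.T ω : ℝ) / 2 ^ J - (a : ℝ) / 2 ^ (w₀ + k * z) := ⟨_, rfl⟩
  obtain ⟨t₂, et₂⟩ : ∃ t₂ : ℝ, t₂ = (D.T ω' : ℝ) / 2 ^ J - (a : ℝ) / 2 ^ (w₀ + k * z) := ⟨_, rfl⟩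
  rw [← et₁] at ht₁
  rw [← et₂] at ht₂
  have eY : D.Y J ω = fun i => A i + t₁ * D.E (D.ln ω) i := by
    rw [hYE, hA, et₁]
    funext i
    ring
  have eY' : D.Y J ω' = fun i => A i + t₂ * D.E (D.ln ω) i := by
    rw [hYE, hA, et₂, ← hln]
    funext i
    ring
  have h3 := Ht P A (D.E (D.ln ω)) b t₁ t₂ (1 / 2 ^ (w₀ + k * z))
    (Real.exp (C₂ * z) * 2 ^ (j * (w₀ + k * z)) / 2 ^ D.g k) L hPd (by positivity)
    (by positivity) hL0 (hE _) ht₁ ht₂ (by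
      rw [et₁, et₂, hL]
      have e1 : (D.T ω' : ℝ) / 2 ^ J - (a : ℝ) / 2 ^ (w₀ + k * z) -
          ((D.T ω : ℝ) / 2 ^ J - (a : ℝ) / 2 ^ (w₀ + k * z)) =
          (D.T ω' : ℝ) / 2 ^ J - D.T ω / 2 ^ J := by ring
      rw [e1]
      exact hclose)
    (by
      intro t ht
      have h4 := hG.b3 (t * 2 ^ (w₀ + k * z)) (by
        refine ⟨mul_nonneg ht.1 (by positivity), ?_⟩
        have := ht.2
        rwa [le_div_iff₀ (by positivity)] at this) j le_rfl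
      rw [← hP] at h4
      have e1 : D.Yt J (w₀ + k * z) ω (t * 2 ^ (w₀ + k * z)) =
          fun l => A l + t * D.E (D.ln ω) l := by
        unfold Dat.Yt
        rw [hA, ← ha]
        funext l
        field_simp
        ring
      rwa [e1] at h4)
    (by
      intro i
      have := hb i
      rw [eY] at this
      rw [hL]
      exact this)
  rw [← eY, ← eY'] at h3
  have e3 : Real.exp (C₂ * z) * 2 ^ (j * (w₀ + k * z)) / 2 ^ D.g k / (1 / 2 ^ (w₀ + k * z)) *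
      L ^ (j + 1) =
      Real.exp (C₂ * z - D.g k * Real.log 2 - (j + 1) * (v * (z * Real.log 2))) := by
    rw [hL, tp, tp, tp, tp, one_div, one_div, ← Real.exp_neg, ← Real.exp_neg, ← Real.exp_add,
      ← Real.exp_sub, ← Real.exp_sub, ← Real.exp_nat_mul, ← Real.exp_add]
    congr 1
    push_cast
    ring
  rw [mul_assoc, e3] at h3
  have e4 : MvPolynomial.eval b (GG D B k j ω') - MvPolynomial.eval b (GG D B k j ω) =
      (MvPolynomial.eval b (tay (j + 1) (RR D B k ω') (ys D B k ω')) -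
        MvPolynomial.eval b (tay (j + 1) P (D.Y J ω'))) -
      (MvPolynomial.eval b (tay (j + 1) (RR D B k ω) (ys D B k ω)) -
        MvPolynomial.eval b (tay (j + 1) P (D.Y J ω))) +
      (MvPolynomial.eval b (tay (j + 1) P (D.Y J ω')) -
        MvPolynomial.eval b (tay (j + 1) P (D.Y J ω))) := by
    unfold GG
    rw [map_add, map_add, hc]
    ring
  rw [e4]
  have p1 : 0 ≤ SS D K z B k s C₁ C₂ * Real.exp (j * ((B - v) * (z * Real.log 2))) := by positivity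
  have p2 := (Real.exp_pos (C₂ * z - D.g k * Real.log 2 -
    (j + 1) * (v * (z * Real.log 2)))).le
  have q1 := mul_nonneg (by linarith only [hCt] : 0 ≤ Ct) p1
  have q2 := mul_nonneg (by linarith only [hC] : 0 ≤ 2 * C) p2
  rw [abs_le] at h1 h2 h3 ⊢
  constructor <;> nlinarith only [h2, h1, h3, q1, q2, h1.1, h1.2, h2.1, h2.2, h3.1, h3.2]

end Pool.Agent.H32.BFL
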